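import Pool.Agent.W472.DPCoeff
import Pool.Agent.H952R2.Sextic.CommonZero

/-! A branch of a cubic curve which has contact at least four with all its osculating parabolas is
a parabola. -/

set_option autoImplicit false

open Pool.Agent.H952R2.Sextic

namespace Pool.Agent.W472.DP

section hb

variable {k : Type} [Field k] {R : Type} [CommRing R] [Algebra k R]

/-- Hasse derivatives -/
noncomputable def hb (B : Polynomial k) (n : ℕ) (s : R) : R :=
  Polynomial.aeval s (Polynomial.hasseDeriv n B)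

theorem hb_map {R' : Type} [CommRing R'] [Algebra k R'] (φ : R →ₐ[k] R') (B : Polynomial k) (n : ℕ)
    (s : R) : φ (hb B n s) = hb B n (φ s) := by
  rw [hb, hb, Polynomial.aeval_algHom_apply]

theorem hb_deriv (δ : Derivation k R R) (B : Polynomial k) (n : ℕ) (s : R) (hs : δ s = 1) :
    δ (hb B n s) = (n + 1 : ℕ) * hb B (n + 1) s := by
  have h1 : Polynomial.derivative (Polynomial.hasseDeriv n B) =
      ((n + 1 : ℕ) : Polynomial k) * Polynomial.hasseDeriv (n + 1) B := by
    have h := congrArg (fun f => f B) (Polynomial.hasseDeriv_comp (R := k) 1 n)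
    simp only [Polynomial.hasseDeriv_one, LinearMap.comp_apply, LinearMap.smul_apply] at h
    rw [h, Nat.choose_one_right, add_comm 1 n, nsmul_eq_mul]
  rw [hb, Derivation.map_aeval, hs, h1, map_mul, hb]
  simp

/-- the coefficients -/
noncomputable def k0 (B2 B4 B6 : Polynomial k) (s x : R) : R :=
  x ^ 3 + hb B2 0 s * x ^ 2 + hb B4 0 s * x + hb B6 0 s

noncomputable def kx (B2 B4 : Polynomial k) (s x : R) : R :=
  3 * x ^ 2 + 2 * hb B2 0 s * x + hb B4 0 s

noncomputable def k1 (B2 B4 B6 : Polynomial k) (s x ξ : R) : R :=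
  3 * x ^ 2 * ξ + hb B2 0 s * (2 * x * ξ) + hb B2 1 s * x ^ 2 + hb B4 0 s * ξ +
    hb B4 1 s * x + hb B6 1 s

noncomputable def k2 (B2 B4 B6 : Polynomial k) (s x ξ τ : R) : R :=
  3 * x ^ 2 * τ + 3 * x * ξ ^ 2 + hb B2 0 s * (ξ ^ 2 + 2 * x * τ) +
    hb B2 1 s * (2 * x * ξ) + hb B2 2 s * x ^ 2 + hb B4 0 s * τ + hb B4 1 s * ξ +
    hb B4 2 s * x + hb B6 2 s

noncomputable def k3 (B2 B4 B6 : Polynomial k) (s x ξ τ : R) : R :=
  ξ ^ 3 + 6 * x * ξ * τ + hb B2 0 s * (2 * ξ * τ) + hb B2 1 s * (ξ ^ 2 + 2 * x * τ) +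
    hb B2 2 s * (2 * x * ξ) + hb B2 3 s * x ^ 2 + hb B4 1 s * τ + hb B4 2 s * ξ +
    hb B4 3 s * x + hb B6 3 s

variable {R' : Type} [CommRing R'] [Algebra k R'] (φ : R →ₐ[k] R') (B2 B4 B6 : Polynomial k)

theorem k0_map (s x : R) : φ (k0 B2 B4 B6 s x) = k0 B2 B4 B6 (φ s) (φ x) := by
  simp only [k0, map_add, map_mul, map_pow, hb_map]

theorem kx_map (s x : R) : φ (kx B2 B4 s x) = kx B2 B4 (φ s) (φ x) := by
  simp only [kx, map_add, map_mul, map_pow, hb_map, map_ofNat]

theorem k1_map (s x ξ : R) : φ (k1 B2 B4 B6 s x ξ) = k1 B2 B4 B6 (φ s) (φ x) (φ ξ) := by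
  simp only [k1, map_add, map_mul, map_pow, hb_map, map_ofNat]

theorem k2_map (s x ξ τ : R) :
    φ (k2 B2 B4 B6 s x ξ τ) = k2 B2 B4 B6 (φ s) (φ x) (φ ξ) (φ τ) := by
  simp only [k2, map_add, map_mul, map_pow, hb_map, map_ofNat]

theorem k3_map (s x ξ τ : R) :
    φ (k3 B2 B4 B6 s x ξ τ) = k3 B2 B4 B6 (φ s) (φ x) (φ ξ) (φ τ) := by
  simp only [k3, map_add, map_mul, map_pow, hb_map, map_ofNat]

/-- The relations along a branch. -/
theorem branch_rel (δ : Derivation k R R) (s x η τ : R) (hs : δ s = 1) (h2 : IsUnit (2 : R))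
    (hτ : δ (δ x) = 2 * τ) (hη : δ τ = 3 * η)
    (h3 : IsUnit (3 : R)) (h0 : k0 B2 B4 B6 s x = 0) :
    k1 B2 B4 B6 s x (δ x) = 0 ∧ k2 B2 B4 B6 s x (δ x) τ = 0 ∧
      k3 B2 B4 B6 s x (δ x) τ = -(kx B2 B4 s x * η) := by
  have e : ∀ (B : Polynomial k) (n : ℕ), δ (hb B n s) = (n + 1 : ℕ) * hb B (n + 1) s :=
    fun B n => hb_deriv δ B n s hs
  have d1 : k1 B2 B4 B6 s x (δ x) = 0 := by
    have h := congrArg δ h0
    simp only [k0, map_add, Derivation.leibniz, Derivation.leibniz_pow, e, smul_eq_mul,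
      nsmul_eq_mul, map_zero] at h
    rw [k1, ← h]
    push_cast
    ring
  have d2 : k2 B2 B4 B6 s x (δ x) τ = 0 := by
    have h := congrArg δ d1
    have e2 : δ (2 : R) = 0 := by exact_mod_cast Derivation.map_natCast δ 2
    have e3 : δ (3 : R) = 0 := by exact_mod_cast Derivation.map_natCast δ 3
    simp only [k1, map_add, Derivation.leibniz, Derivation.leibniz_pow, e, smul_eq_mul,
      nsmul_eq_mul, map_zero, hτ, e2, e3] at h
    apply h2.mul_left_cancel
    rw [mul_zero, k2, ← h]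
    push_cast
    ring
  refine ⟨d1, d2, ?_⟩
  have h := congrArg δ d2
  have e2 : δ (2 : R) = 0 := by exact_mod_cast Derivation.map_natCast δ 2
  have e3 : δ (3 : R) = 0 := by exact_mod_cast Derivation.map_natCast δ 3
  simp only [k2, map_add, Derivation.leibniz, Derivation.leibniz_pow, e, smul_eq_mul,
    nsmul_eq_mul, map_zero, hτ, hη, e2, e3] at h
  apply h3.mul_left_cancel
  rw [k3, kx]
  push_cast at h
  linear_combination h

end hb

section field

variable {k : Type} [Field k]

theorem cub_taylor_coeffs (B2 B4 B6 : Polynomial k) (s x ξ τ : k) :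
    (cub (Polynomial.taylor s B2) (Polynomial.taylor s B4) (Polynomial.taylor s B6)
      (qd x ξ τ)).coeff 0 = k0 B2 B4 B6 s x ∧
    (cub (Polynomial.taylor s B2) (Polynomial.taylor s B4) (Polynomial.taylor s B6)
      (qd x ξ τ)).coeff 1 = k1 B2 B4 B6 s x ξ ∧
    (cub (Polynomial.taylor s B2) (Polynomial.taylor s B4) (Polynomial.taylor s B6)
      (qd x ξ τ)).coeff 2 = k2 B2 B4 B6 s x ξ τ ∧
    (cub (Polynomial.taylor s B2) (Polynomial.taylor s B4) (Polynomial.taylor s B6)
      (qd x ξ τ)).coeff 3 = k3 B2 B4 B6 s x ξ τ := by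
  have e : ∀ (B : Polynomial k) (n : ℕ), (Polynomial.taylor s B).coeff n = hb B n s := by
    intro B n
    rw [Polynomial.taylor_coeff, hb, Polynomial.coe_aeval_eq_eval]
  obtain ⟨h0, h1, h2, h3⟩ := cub_coeffs (Polynomial.taylor s B2) (Polynomial.taylor s B4)
    (Polynomial.taylor s B6) x ξ τ
  simp only [e] at h0 h1 h2 h3
  exact ⟨h0, h1, h2, h3⟩

/-- Either some osculating parabola has contact exactly three, or the branch is a parabola. -/
theorem branch [IsAlgClosed k] [CharZero k] (B2 B4 B6 : Polynomial k) (x0 : k)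
    (h0 : k0 B2 B4 B6 (0 : k) x0 = 0) (hh : kx B2 B4 (0 : k) x0 ≠ 0) :
    (∃ s x ξ τ : k, kx B2 B4 s x ≠ 0 ∧ k0 B2 B4 B6 s x = 0 ∧ k1 B2 B4 B6 s x ξ = 0 ∧
      k2 B2 B4 B6 s x ξ τ = 0 ∧ k3 B2 B4 B6 s x ξ τ ≠ 0) ∨
    (∃ ξ τ : k, cub B2 B4 B6 (qd x0 ξ τ) = 0) := by
  classical
  -- the branch
  let I : Ideal (PowerSeries k) := Ideal.span {PowerSeries.X}
  have hens : HenselianRing (PowerSeries k) I := inferInstance
  have memI : ∀ f : PowerSeries k, f ∈ I ↔ PowerSeries.constantCoeff f = 0 := by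
    intro f
    rw [Ideal.mem_span_singleton, PowerSeries.X_dvd_iff]
  set f : Polynomial (PowerSeries k) := Polynomial.X ^ 3 +
    Polynomial.C (B2 : PowerSeries k) * Polynomial.X ^ 2 +
    Polynomial.C (B4 : PowerSeries k) * Polynomial.X + Polynomial.C (B6 : PowerSeries k) with hf
  have hfm : f.Monic := by
    rw [hf]
    monicity!
  have c0 : ∀ B : Polynomial k, B.coeff 0 = hb B 0 (0 : k) := by
    intro B
    rw [hb, Polynomial.hasseDeriv_zero', Polynomial.coe_aeval_eq_eval,
      Polynomial.coeff_zero_eq_eval_zero]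
  have cc : ∀ B : Polynomial k, PowerSeries.constantCoeff (B : PowerSeries k) =
      hb B 0 (0 : k) := by
    intro B
    rw [← c0]
    simp
  obtain ⟨φ, hφ, hφ0⟩ := hens.is_henselian f hfm (PowerSeries.C x0) (by
    rw [memI, hf]
    simp only [Polynomial.eval_add, Polynomial.eval_mul, Polynomial.eval_pow, Polynomial.eval_X,
      Polynomial.eval_C, map_add, map_mul, map_pow, cc, PowerSeries.constantCoeff_C]
    exact h0) (by
    apply IsUnit.map
    rw [PowerSeries.isUnit_iff_constantCoeff, isUnit_iff_ne_zero, hf]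
    simp only [Polynomial.derivative_mul, Polynomial.derivative_C,
      Polynomial.derivative_X_pow, Polynomial.derivative_X, Polynomial.eval_add,
      Polynomial.eval_mul, Polynomial.eval_pow, Polynomial.eval_X,
      Polynomial.eval_C, map_add, map_mul, map_pow, cc, PowerSeries.constantCoeff_C]
    have : kx B2 B4 (0 : k) x0 = 3 * x0 ^ 2 + 2 * hb B2 0 (0 : k) * x0 + hb B4 0 (0 : k) := rfl
    rw [this] at hh
    intro h
    apply hh
    have n3 : PowerSeries.constantCoeff (3 : PowerSeries k) = 3 := map_ofNat _ 3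
    have n2 : PowerSeries.constantCoeff (2 : PowerSeries k) = 2 := map_ofNat _ 2
    simp at h
    rw [n3, n2] at h
    linear_combination h)
  have hφc : PowerSeries.constantCoeff φ = x0 := by
    rw [memI, map_sub, PowerSeries.constantCoeff_C, sub_eq_zero] at hφ0
    exact hφ0
  have coeB : ∀ (B : Polynomial k) (n : ℕ), hb B n (PowerSeries.X : PowerSeries k) =
      ((Polynomial.hasseDeriv n B : Polynomial k) : PowerSeries k) := by
    intro B n
    rw [hb]
    have := Polynomial.aeval_algHom_apply (Polynomial.coeToPowerSeries.algHom (R := k) k)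
      Polynomial.X (Polynomial.hasseDeriv n B)
    simp at this
    exact this
  have coeB0 : ∀ B : Polynomial k, hb B 0 (PowerSeries.X : PowerSeries k) =
      (B : PowerSeries k) := by
    intro B
    rw [coeB, Polynomial.hasseDeriv_zero']
  have hk0 : k0 B2 B4 B6 (PowerSeries.X : PowerSeries k) φ = 0 := by
    rw [k0, coeB0, coeB0, coeB0]
    have := hφ
    rw [Polynomial.IsRoot.def, hf] at this
    simpa using this
  set δ : Derivation k (PowerSeries k) (PowerSeries k) := PowerSeries.derivative k with hδ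
  set τ : PowerSeries k := PowerSeries.C (2 : k)⁻¹ * δ (δ φ) with hτ
  set η : PowerSeries k := PowerSeries.C (3 : k)⁻¹ * δ τ with hη
  have u2 : (2 : PowerSeries k) * PowerSeries.C (2 : k)⁻¹ = 1 := by
    have : (2 : PowerSeries k) = PowerSeries.C (2 : k) := (map_ofNat _ 2).symm
    rw [this, ← map_mul, mul_inv_cancel₀ two_ne_zero, map_one]
  have u3 : (3 : PowerSeries k) * PowerSeries.C (3 : k)⁻¹ = 1 := by
    have : (3 : PowerSeries k) = PowerSeries.C (3 : k) := (map_ofNat _ 3).symm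
    rw [this, ← map_mul, mul_inv_cancel₀ three_ne_zero, map_one]
  obtain ⟨r1, r2, r3⟩ := branch_rel B2 B4 B6 δ (PowerSeries.X : PowerSeries k) φ η τ
    PowerSeries.derivative_X (IsUnit.of_mul_eq_one _ u2)
    (by rw [hτ, ← mul_assoc, u2, one_mul]) (by rw [hη, ← mul_assoc, u3, one_mul])
    (IsUnit.of_mul_eq_one _ u3) hk0
  have hkx : kx B2 B4 (PowerSeries.X : PowerSeries k) φ ≠ 0 := by
    intro h
    apply hh
    have h1 := congrArg PowerSeries.constantCoeff h
    rw [kx, coeB0, coeB0] at h1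
    simp only [map_add, map_mul, map_pow, cc, hφc, map_zero, map_ofNat] at h1
    exact h1
  by_cases hη0 : η = 0
  · right
    have hd3 : ∀ n, 3 ≤ n → PowerSeries.coeff n φ = 0 := by
      intro n hn
      obtain ⟨j, rfl⟩ := Nat.exists_eq_add_of_le' hn
      have h1 : δ (δ (δ φ)) = 0 := by
        have h2 : δ τ = 0 := by
          have : δ τ = 3 * η := by rw [hη, ← mul_assoc, u3, one_mul]
          rw [this, hη0, mul_zero]
        have h4 : δ (δ φ) = (2 : k) • τ := by
          rw [hτ, PowerSeries.smul_eq_C_mul, ← mul_assoc, ← map_mul,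
            mul_inv_cancel₀ two_ne_zero, map_one, one_mul]
        rw [h4, Derivation.map_smul, h2, smul_zero]
      have h5 := congrArg (PowerSeries.coeff j) h1
      rw [hδ, PowerSeries.coeff_derivative, PowerSeries.coeff_derivative,
        PowerSeries.coeff_derivative, map_zero] at h5
      have n1 : ((j : k) + 1) ≠ 0 := by exact_mod_cast Nat.succ_ne_zero j
      have n2 : (((j + 1 : ℕ) : k) + 1) ≠ 0 := by exact_mod_cast Nat.succ_ne_zero (j + 1)
      have n3 : (((j + 1 + 1 : ℕ) : k) + 1) ≠ 0 := by exact_mod_cast Nat.succ_ne_zero (j + 1 + 1)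
      exact (((mul_eq_zero.mp h5).resolve_right n1 |> mul_eq_zero.mp).resolve_right n2 |>
        mul_eq_zero.mp).resolve_right n3
    refine ⟨PowerSeries.coeff 1 φ, PowerSeries.coeff 2 φ, ?_⟩
    apply Polynomial.coe_injective
    have hq : ((qd x0 (PowerSeries.coeff 1 φ) (PowerSeries.coeff 2 φ) : Polynomial k) :
        PowerSeries k) = φ := by
      ext n
      rw [Polynomial.coeff_coe, qd]
      rcases n with _ | _ | _ | n
      · simp [hφc]
      · simp
      · simp
      · rw [hd3 (n + 1 + 1 + 1) (by omega)]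
        simp [Polynomial.coeff_X, Polynomial.coeff_C]
    rw [cub]
    rw [k0, coeB0, coeB0, coeB0] at hk0
    simp only [Polynomial.coe_add, Polynomial.coe_mul, Polynomial.coe_pow, hq, Polynomial.coe_zero]
    exact hk0
  · left
    have hk3 : k3 B2 B4 B6 (PowerSeries.X : PowerSeries k) φ (δ φ) τ ≠ 0 := by
      rw [r3]
      exact neg_ne_zero.mpr (mul_ne_zero hkx hη0)
    let M := FractionRing (PowerSeries k)
    let ι : PowerSeries k →ₐ[k] M := IsScalarTower.toAlgHom k (PowerSeries k) M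
    have hι : Function.Injective ι := IsFractionRing.injective (PowerSeries k) M
    have hιz : ∀ z, ι z = 0 → z = 0 := fun z hz => hι (by rw [hz, map_zero])
    let sv : MvPolynomial (Fin 4) k := MvPolynomial.X 0
    let xv : MvPolynomial (Fin 4) k := MvPolynomial.X 1
    let ξv : MvPolynomial (Fin 4) k := MvPolynomial.X 2
    let τv : MvPolynomial (Fin 4) k := MvPolynomial.X 3
    obtain ⟨y, hy, hyg⟩ := transfer (k := k) (kb := k) (M := M)
      (![k0 B2 B4 B6 sv xv, k1 B2 B4 B6 sv xv ξv, k2 B2 B4 B6 sv xv ξv τv] :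
        Fin 3 → MvPolynomial (Fin 4) k) (kx B2 B4 sv xv * k3 B2 B4 B6 sv xv ξv τv)
      ⟨![ι PowerSeries.X, ι φ, ι (δ φ), ι τ], by
        have a0 : MvPolynomial.aeval ![ι PowerSeries.X, ι φ, ι (δ φ), ι τ] sv =
          ι PowerSeries.X := by simp [sv]
        have a1 : MvPolynomial.aeval ![ι PowerSeries.X, ι φ, ι (δ φ), ι τ] xv =
          ι φ := by simp [xv]
        have a2 : MvPolynomial.aeval ![ι PowerSeries.X, ι φ, ι (δ φ), ι τ] ξv =
          ι (δ φ) := by simp [ξv]
        have a3 : MvPolynomial.aeval ![ι PowerSeries.X, ι φ, ι (δ φ), ι τ] τv =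
          ι τ := by simp [τv]
        refine ⟨?_, ?_⟩
        · intro i
          fin_cases i
          · change MvPolynomial.aeval _ (k0 B2 B4 B6 sv xv) = 0
            rw [k0_map, a0, a1, ← k0_map, hk0, map_zero]
          · change MvPolynomial.aeval _ (k1 B2 B4 B6 sv xv ξv) = 0
            rw [k1_map, a0, a1, a2, ← k1_map, r1, map_zero]
          · change MvPolynomial.aeval _ (k2 B2 B4 B6 sv xv ξv τv) = 0
            rw [k2_map, a0, a1, a2, a3, ← k2_map, r2, map_zero]
        · rw [map_mul, kx_map, k3_map, a0, a1, a2, a3, ← kx_map, ← k3_map]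
          exact mul_ne_zero (fun h => hkx (hιz _ h)) (fun h => hk3 (hιz _ h))⟩
    have b0 : MvPolynomial.aeval y sv = y 0 := by simp [sv]
    have b1 : MvPolynomial.aeval y xv = y 1 := by simp [xv]
    have b2 : MvPolynomial.aeval y ξv = y 2 := by simp [ξv]
    have b3 : MvPolynomial.aeval y τv = y 3 := by simp [τv]
    rw [map_mul, kx_map, k3_map, b0, b1, b2, b3] at hyg
    refine ⟨y 0, y 1, y 2, y 3, left_ne_zero_of_mul hyg, ?_, ?_, ?_, right_ne_zero_of_mul hyg⟩
    · have := hy 0
      change MvPolynomial.aeval y (k0 B2 B4 B6 sv xv) = 0 at this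
      rwa [k0_map, b0, b1] at this
    · have := hy 1
      change MvPolynomial.aeval y (k1 B2 B4 B6 sv xv ξv) = 0 at this
      rwa [k1_map, b0, b1, b2] at this
    · have := hy 2
      change MvPolynomial.aeval y (k2 B2 B4 B6 sv xv ξv τv) = 0 at this
      rwa [k2_map, b0, b1, b2, b3] at this

end field

end Pool.Agent.W472.DP
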