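import Mathlib

/-!
Del Pezzo manifolds of degree one: definitions.

For forms `a₂, a₄, a₆` of degrees `2, 4, 6` in `m` variables `t = (t₁, …, tₘ)` over a field `K` the
hypersurface `X : y² = x³ + a₂(t) x² + a₄(t) x + a₆(t)` of degree six in the weighted projective
space `ℙ(1, …, 1, 2, 3)` with coordinates `t₁, …, tₘ, x, y` has dimension `m`. When it is smooth it
is a del Pezzo manifold of degree one (for `m = 2`: a del Pezzo surface of degree one).
-/

set_option autoImplicit false

open MvPolynomial

namespace Pool.Agent.W472.DPDefs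

/-- The right-hand side `x³ + a₂(t) x² + a₄(t) x + a₆(t)` at `x` and `t` in a `K`-algebra `R`. -/
noncomputable def rhs {K R : Type} [CommRing K] [CommRing R] [Algebra K R] {m : ℕ}
    (a2 a4 a6 : MvPolynomial (Fin m) K) (x : R) (t : Fin m → R) : R :=
  x ^ 3 + aeval t a2 * x ^ 2 + aeval t a4 * x + aeval t a6

/-- `a₂, a₄, a₆` are forms of degrees `2, 4, 6`. -/
def AreForms {K : Type} [CommRing K] {m : ℕ} (a2 a4 a6 : MvPolynomial (Fin m) K) : Prop :=
  a2.IsHomogeneous 2 ∧ a4.IsHomogeneous 4 ∧ a6.IsHomogeneous 6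

/-- The hypersurface `y² = x³ + a₂(t) x² + a₄(t) x + a₆(t)` in `ℙ(1, …, 1, 2, 3)` is smooth: over
the algebraic closure there is no point `(x, t)` with `t ≠ 0` at which the right-hand side and all
its partial derivatives vanish (a singular point has `y = 0`, and `t = 0 = y` forces `x = 0`). -/
def IsSmooth {K : Type} [Field K] {m : ℕ} (a2 a4 a6 : MvPolynomial (Fin m) K) : Prop :=
  ∀ (x : AlgebraicClosure K) (t : Fin m → AlgebraicClosure K),
    rhs a2 a4 a6 x t = 0 → 3 * x ^ 2 + 2 * aeval t a2 * x + aeval t a4 = 0 →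
      (∀ j, aeval t (pderiv j a2) * x ^ 2 + aeval t (pderiv j a4) * x +
        aeval t (pderiv j a6) = 0) → t = 0

/-- The coordinates `(y, x, t)` as a family indexed by `Option (Option (Fin m))`; `none` is the
index of `y` and `some none` is the index of `x`. -/
def coord {R : Type} {m : ℕ} (y x : R) (t : Fin m → R) : Option (Option (Fin m)) → R :=
  fun o => o.elim y fun o' => o'.elim x t

/-- The `K`-rational points of `X` are Zariski dense in `X`: every polynomial `G` in `y, x, t` with
coefficients in the algebraic closure of `K` which vanishes at all `K`-rational points of `X`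
vanishes at all points of `X` over the algebraic closure. -/
def DensePoints {K : Type} [Field K] {m : ℕ} (a2 a4 a6 : MvPolynomial (Fin m) K) : Prop :=
  ∀ G : MvPolynomial (Option (Option (Fin m))) (AlgebraicClosure K),
    (∀ (y x : K) (t : Fin m → K), (x ≠ 0 ∨ t ≠ 0) → y ^ 2 = rhs a2 a4 a6 x t →
      eval (coord (algebraMap K (AlgebraicClosure K) y) (algebraMap K (AlgebraicClosure K) x)
        (fun j => algebraMap K (AlgebraicClosure K) (t j))) G = 0) →
    ∀ (y x : AlgebraicClosure K) (t : Fin m → AlgebraicClosure K),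
      y ^ 2 = rhs a2 a4 a6 x t → eval (coord y x t) G = 0

/-- `R : x³ + a₂ x² + a₄ x + a₆ = 0, y = 0`, the ramification divisor of `X → ℙ(1, …, 1, 2)`, has a
`K`-rational point `(x₀, t₀)` at which the derivative with respect to `x` does not vanish, and some
curve `x = x₀ + ξ s + τ s², t = t₀ + D s` (with `ξ, τ, D` over `K`) meets `R` at this point (that
is, at `s = 0`) with multiplicity exactly three. -/
def HasOsculatingPoint {K : Type} [Field K] {m : ℕ} (a2 a4 a6 : MvPolynomial (Fin m) K) : Prop :=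
  ∃ (x₀ ξ τ : K) (t₀ D : Fin m → K), 3 * x₀ ^ 2 + 2 * eval t₀ a2 * x₀ + eval t₀ a4 ≠ 0 ∧
    ∃ Φ : Polynomial K,
      Φ = rhs a2 a4 a6
        (Polynomial.C x₀ + Polynomial.C ξ * Polynomial.X + Polynomial.C τ * Polynomial.X ^ 2)
        (fun j => Polynomial.C (t₀ j) + Polynomial.C (D j) * Polynomial.X) ∧
      Φ.coeff 0 = 0 ∧ Φ.coeff 1 = 0 ∧ Φ.coeff 2 = 0 ∧ Φ.coeff 3 ≠ 0

end Pool.Agent.W472.DPDefs
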