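import Pool.Agent.H952R2.Sextic.LinePoly
import Pool.Agent.W472.DPDefs

/-! Coefficients of `P³ + B₂ P² + B₄ P + B₆` for a quadratic polynomial `P`. -/

set_option autoImplicit false

open MvPolynomial Pool.Agent.H952R2.Sextic

namespace Pool.Agent.W472.DP

section coeff

variable {R : Type*} [CommRing R]

/-- the quadratic polynomial -/
noncomputable def qd (x ξ τ : R) : Polynomial R :=
  Polynomial.C x + Polynomial.C ξ * Polynomial.X + Polynomial.C τ * Polynomial.X ^ 2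

noncomputable def cub (B2 B4 B6 : Polynomial R) (P : Polynomial R) : Polynomial R :=
  P ^ 3 + B2 * P ^ 2 + B4 * P + B6

theorem qd_sq (x ξ τ : R) : qd x ξ τ ^ 2 = Polynomial.C (x ^ 2) +
    Polynomial.C (2 * x * ξ) * Polynomial.X ^ 1 + Polynomial.C (ξ ^ 2 + 2 * x * τ) *
    Polynomial.X ^ 2 + Polynomial.C (2 * ξ * τ) * Polynomial.X ^ 3 + Polynomial.C (τ ^ 2) *
    Polynomial.X ^ 4 := by
  simp only [qd, map_add, map_mul, map_pow, map_ofNat]
  ring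

theorem qd_cube (x ξ τ : R) : qd x ξ τ ^ 3 = Polynomial.C (x ^ 3) +
    Polynomial.C (3 * x ^ 2 * ξ) * Polynomial.X ^ 1 +
    Polynomial.C (3 * x ^ 2 * τ + 3 * x * ξ ^ 2) * Polynomial.X ^ 2 +
    Polynomial.C (ξ ^ 3 + 6 * x * ξ * τ) * Polynomial.X ^ 3 +
    Polynomial.C (3 * ξ ^ 2 * τ + 3 * x * τ ^ 2) * Polynomial.X ^ 4 +
    Polynomial.C (3 * ξ * τ ^ 2) * Polynomial.X ^ 5 + Polynomial.C (τ ^ 3) *
    Polynomial.X ^ 6 := by
  simp only [qd, map_add, map_mul, map_pow, map_ofNat]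
  ring

theorem cub_coeffs (B2 B4 B6 : Polynomial R) (x ξ τ : R) :
    (cub B2 B4 B6 (qd x ξ τ)).coeff 0 =
      x ^ 3 + B2.coeff 0 * x ^ 2 + B4.coeff 0 * x + B6.coeff 0 ∧
    (cub B2 B4 B6 (qd x ξ τ)).coeff 1 =
      3 * x ^ 2 * ξ + B2.coeff 0 * (2 * x * ξ) + B2.coeff 1 * x ^ 2 + B4.coeff 0 * ξ +
        B4.coeff 1 * x + B6.coeff 1 ∧
    (cub B2 B4 B6 (qd x ξ τ)).coeff 2 =
      3 * x ^ 2 * τ + 3 * x * ξ ^ 2 + B2.coeff 0 * (ξ ^ 2 + 2 * x * τ) +
        B2.coeff 1 * (2 * x * ξ) + B2.coeff 2 * x ^ 2 + B4.coeff 0 * τ + B4.coeff 1 * ξ +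
        B4.coeff 2 * x + B6.coeff 2 ∧
    (cub B2 B4 B6 (qd x ξ τ)).coeff 3 =
      ξ ^ 3 + 6 * x * ξ * τ + B2.coeff 0 * (2 * ξ * τ) + B2.coeff 1 * (ξ ^ 2 + 2 * x * τ) +
        B2.coeff 2 * (2 * x * ξ) + B2.coeff 3 * x ^ 2 + B4.coeff 1 * τ + B4.coeff 2 * ξ +
        B4.coeff 3 * x + B6.coeff 3 := by
  have h : cub B2 B4 B6 (qd x ξ τ) = qd x ξ τ ^ 3 + B2 * qd x ξ τ ^ 2 + B4 * (Polynomial.C x +
      Polynomial.C ξ * Polynomial.X ^ 1 + Polynomial.C τ * Polynomial.X ^ 2) + B6 := by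
    rw [cub, pow_one, qd]
  rw [h, qd_sq, qd_cube]
  simp only [mul_add, ← mul_assoc, Polynomial.coeff_add, Polynomial.coeff_mul_X_pow',
    Polynomial.coeff_mul_C, Polynomial.coeff_C]
  norm_num
  refine ⟨?_, ?_, ?_⟩ <;> ring

theorem qd_natDegree (x ξ τ : R) : (qd x ξ τ).natDegree ≤ 2 := by
  rw [qd]
  compute_degree

theorem cub_natDegree {B2 B4 B6 : Polynomial R} (h2 : B2.natDegree ≤ 2) (h4 : B4.natDegree ≤ 4)
    (h6 : B6.natDegree ≤ 6) (x ξ τ : R) : (cub B2 B4 B6 (qd x ξ τ)).natDegree ≤ 6 := by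
  have h := qd_natDegree x ξ τ
  rw [cub]
  refine (Polynomial.natDegree_add_le _ _).trans (max_le ((Polynomial.natDegree_add_le _ _).trans
    (max_le ((Polynomial.natDegree_add_le _ _).trans (max_le ?_ ?_)) ?_)) h6)
  · exact (Polynomial.natDegree_pow_le).trans (by omega)
  · exact (Polynomial.natDegree_mul_le).trans
      (by have := Polynomial.natDegree_pow_le (p := qd x ξ τ) (n := 2); omega)
  · exact (Polynomial.natDegree_mul_le).trans (by omega)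

theorem cub_map {R' : Type*} [CommRing R'] (φ : R →+* R') (B2 B4 B6 : Polynomial R) (x ξ τ : R) :
    (cub B2 B4 B6 (qd x ξ τ)).map φ =
      cub (B2.map φ) (B4.map φ) (B6.map φ) (qd (φ x) (φ ξ) (φ τ)) := by
  simp [cub, qd]

end coeff

/-- `rhs` along a curve -/
theorem rhs_eq {K R : Type} [CommRing K] [CommRing R] [Algebra K R] {m : ℕ}
    (a2 a4 a6 : MvPolynomial (Fin m) K) (x ξ τ : R) (t D : Fin m → R) :
    DPDefs.rhs a2 a4 a6
      (Polynomial.C x + Polynomial.C ξ * Polynomial.X + Polynomial.C τ * Polynomial.X ^ 2)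
      (fun j => Polynomial.C (t j) + Polynomial.C (D j) * Polynomial.X) =
    cub (lp a2 t D) (lp a4 t D) (lp a6 t D) (qd x ξ τ) := rfl

theorem cub_eval {K R : Type} [CommRing K] [CommRing R] [Algebra K R] {m : ℕ}
    (a2 a4 a6 : MvPolynomial (Fin m) K) (x ξ τ : R) (t D : Fin m → R) (s : R) :
    (cub (lp a2 t D) (lp a4 t D) (lp a6 t D) (qd x ξ τ)).eval s =
      DPDefs.rhs a2 a4 a6 (x + ξ * s + τ * s ^ 2) (fun j => t j + D j * s) := by
  simp only [cub, qd, Polynomial.eval_add, Polynomial.eval_mul, Polynomial.eval_pow,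
    Polynomial.eval_C, Polynomial.eval_X, lp_eval, DPDefs.rhs]

end Pool.Agent.W472.DP
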