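import Pool.Agent.W472.DPDensity

/-! The double cover. -/

set_option autoImplicit false

open MvPolynomial Pool.Agent.H952R2.Sextic

namespace Pool.Agent.W472.DP

variable {K : Type} [Field K] {m : ℕ}

theorem cover_density [CharZero K] [Algebra.IsAlgebraic ℚ K] {M : Type} [Field M] [Algebra K M]
    [IsAlgClosed M] {a2 a4 a6 : MvPolynomial (Fin m) K} (hF : DPDefs.AreForms a2 a4 a6)
    (hosc : DPDefs.HasOsculatingPoint a2 a4 a6) (G : MvPolynomial (Option (Option (Fin m))) M)
    (hG : ∀ (y x : K) (t : Fin m → K), (x ≠ 0 ∨ t ≠ 0) → y ^ 2 = DPDefs.rhs a2 a4 a6 x t →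
      eval (DPDefs.coord (algebraMap K M y) (algebraMap K M x)
        (fun j => algebraMap K M (t j))) G = 0) :
    ∀ (y x : M) (t : Fin m → M), y ^ 2 = DPDefs.rhs a2 a4 a6 x t →
      eval (DPDefs.coord y x t) G = 0 := by
  classical
  have : Infinite M := IsAlgClosed.instInfinite
  have hch : CharZero M := charZero_of_injective_algebraMap (algebraMap K M).injective
  set F' : MvPolynomial (Option (Fin m)) M :=
    X none ^ 3 + rename some (MvPolynomial.map (algebraMap K M) a2) * X none ^ 2 +
      rename some (MvPolynomial.map (algebraMap K M) a4) * X none +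
      rename some (MvPolynomial.map (algebraMap K M) a6) with hF'
  have evF' : ∀ z : Option (Fin m) → M,
      eval z F' = DPDefs.rhs a2 a4 a6 (z none) (fun j => z (some j)) := by
    intro z
    have e1 : ∀ a : MvPolynomial (Fin m) K, eval z (rename some (MvPolynomial.map
        (algebraMap K M) a)) = aeval (fun j => z (some j)) a := by
      intro a
      rw [eval_rename, eval_map, aeval_def]
      rfl
    simp only [hF', map_add, map_mul, map_pow, eval_X, e1, DPDefs.rhs]
  set G' : Polynomial (MvPolynomial (Option (Fin m)) M) :=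
    aeval (fun o : Option (Option (Fin m)) => o.elim Polynomial.X (fun i => Polynomial.C (X i))) G
    with hG'
  have evG' : ∀ (z : Option (Fin m) → M) (w : M), (G'.map (eval z)).eval w =
      eval (fun o : Option (Option (Fin m)) => o.elim w z) G := by
    intro x w
    have h := MvPolynomial.comp_aeval_apply
      (f := fun o : Option (Option (Fin m)) => o.elim
        (Polynomial.X : Polynomial (MvPolynomial (Option (Fin m)) M))
        (fun i => Polynomial.C (X i)))
      (((Polynomial.aeval w : Polynomial M →ₐ[M] M)).comp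
        (Polynomial.mapAlgHom (aeval x : MvPolynomial (Option (Fin m)) M →ₐ[M] M))) G
    rw [← hG'] at h
    have e2 : ((aeval x : MvPolynomial (Option (Fin m)) M →ₐ[M] M) :
        MvPolynomial (Option (Fin m)) M →+* M) =
        eval x := RingHom.ext fun p => aeval_eval x p
    simp only [AlgHom.comp_apply, Polynomial.coe_mapAlgHom, Polynomial.coe_aeval_eq_eval] at h
    rw [e2] at h
    rw [h, ← aeval_eval]
    congr 2
    funext o
    cases o with
    | none => simp
    | some i => simp
  have hcoord : ∀ (y x : M) (t : Fin m → M), DPDefs.coord y x t =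
      fun o : Option (Option (Fin m)) => o.elim y (fun o' => o'.elim x t) := fun y x t => rfl
  set Q : Polynomial (MvPolynomial (Option (Fin m)) M) := Polynomial.X ^ 2 - Polynomial.C F'
    with hQ
  have hQm : Q.Monic := Polynomial.monic_X_pow_sub_C _ (by norm_num)
  have hQd : Q.natDegree = 2 := Polynomial.natDegree_X_pow_sub_C
  set r := G' %ₘ Q with hr
  have hrd : r.natDegree < 2 := by
    have := Polynomial.natDegree_modByMonic_lt G' hQm (by
      intro h1
      rw [h1] at hQd
      simp at hQd)
    rwa [hQd] at this
  set G0 := r.coeff 0 with hG0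
  set G1 := r.coeff 1 with hG1
  have evr : ∀ (z : Option (Fin m) → M) (w : M), w ^ 2 = eval z F' →
      eval (fun o : Option (Option (Fin m)) => o.elim w z) G = eval z G0 + eval z G1 * w := by
    intro x w hw
    rw [← evG']
    have h1 : G' = r + Q * (G' /ₘ Q) := (Polynomial.modByMonic_add_div G' Q).symm
    have hQe : (Q.map (eval x)).eval w = 0 := by
      rw [hQ, Polynomial.map_sub, Polynomial.map_pow, Polynomial.map_X, Polynomial.map_C,
        Polynomial.eval_sub, Polynomial.eval_pow, Polynomial.eval_X, Polynomial.eval_C, hw,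
        sub_self]
    have h2 : (r.map (eval x)).eval w = eval x G0 + eval x G1 * w := by
      rw [Polynomial.eval_eq_sum_range' (n := 2)
        (lt_of_le_of_lt Polynomial.natDegree_map_le hrd)]
      simp [Finset.sum_range_succ, hG0, hG1]
    rw [h1, Polynomial.map_add, Polynomial.map_mul, Polynomial.eval_add, Polynomial.eval_mul, hQe,
      zero_mul, add_zero, h2]
  -- rational points
  have rhsK : ∀ (x : K) (t : Fin m → K), DPDefs.rhs a2 a4 a6 (algebraMap K M x)
      (fun j => algebraMap K M (t j)) = algebraMap K M (DPDefs.rhs a2 a4 a6 x t) := by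
    intro x t
    have e1 : ∀ a : MvPolynomial (Fin m) K, aeval (fun j => algebraMap K M (t j)) a =
        algebraMap K M (aeval t a) := fun a =>
      (MvPolynomial.comp_aeval_apply (f := t) (Algebra.ofId K M) a).symm
    simp only [DPDefs.rhs, e1, map_add, map_mul, map_pow]
  have both : ∀ (x : K) (t : Fin m → K), (x ≠ 0 ∨ t ≠ 0) →
      (∃ y, y ^ 2 = DPDefs.rhs a2 a4 a6 x t) →
      eval (fun o : Option (Fin m) => o.elim (algebraMap K M x)
        (fun j => algebraMap K M (t j))) G0 = 0 ∧
      eval (fun o : Option (Fin m) => o.elim (algebraMap K M x)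
        (fun j => algebraMap K M (t j))) (G1 * F') = 0 := by
    rintro x t hxt ⟨y, hy⟩
    set z : Option (Fin m) → M := fun o => o.elim (algebraMap K M x)
        (fun j => algebraMap K M (t j)) with hz
    have hz' : eval z F' = algebraMap K M y ^ 2 := by
      rw [evF', ← map_pow, hy]
      exact rhsK x t
    have h1 := hG y x t hxt hy
    have h2 := hG (-y) x t hxt (by rw [neg_sq, hy])
    rw [hcoord] at h1 h2
    have h3 := evr z (algebraMap K M y) hz'.symm
    have h4 := evr z (algebraMap K M (-y)) (by rw [map_neg, neg_sq]; exact hz'.symm)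
    rw [h1] at h3
    rw [h2, map_neg] at h4
    have h5 : (2 : M) ≠ 0 := two_ne_zero
    refine ⟨?_, ?_⟩
    · apply mul_left_cancel₀ h5
      linear_combination -h3 - h4
    · rw [map_mul, hz']
      apply mul_left_cancel₀ h5
      linear_combination (-algebraMap K M y) * h3 + (algebraMap K M y) * h4
  have hG0z : G0 = 0 := density_base hF hosc G0 fun x t hxt hy => (both x t hxt hy).1
  have hG1z' : G1 * F' = 0 := density_base hF hosc (G1 * F') fun x t hxt hy => (both x t hxt hy).2
  have hF'0 : F' ≠ 0 := by
    intro h
    have e := evF' (fun o => o.elim 1 0)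
    rw [h, map_zero] at e
    have z2 : ∀ (a : MvPolynomial (Fin m) K) (d : ℕ), a.IsHomogeneous d → d ≠ 0 →
        aeval (0 : Fin m → M) a = 0 := by
      intro a d ha hd
      have := aeval_homog (R := M) ha 0 (0 : Fin m → M)
      rw [zero_pow hd, zero_mul] at this
      simpa using this
    have e2 : (fun j : Fin m => (fun o : Option (Fin m) => o.elim (1 : M) 0) (some j)) =
      (0 : Fin m → M) := rfl
    rw [e2, DPDefs.rhs, z2 a2 2 hF.1 (by norm_num), z2 a4 4 hF.2.1 (by norm_num),
      z2 a6 6 hF.2.2 (by norm_num)] at e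
    simp at e
  have hG1z : G1 = 0 := (mul_eq_zero.mp hG1z').resolve_right hF'0
  intro y x t hy
  have h6 := evr (fun o => o.elim x t) y (by rw [evF']; exact hy)
  rw [hG0z, hG1z] at h6
  rw [hcoord, h6]
  simp

/-- Part one. -/
theorem part1 (K : Type) [Field K] [NumberField K] (m : ℕ) (a2 a4 a6 : MvPolynomial (Fin m) K)
    (hF : DPDefs.AreForms a2 a4 a6) (hosc : DPDefs.HasOsculatingPoint a2 a4 a6) :
    DPDefs.DensePoints a2 a4 a6 :=
  fun G hG => cover_density (M := AlgebraicClosure K) hF hosc G hG

end Pool.Agent.W472.DP
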