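import Pool.Agent.W472.DPCoeff
import Pool.Agent.H952R2.Sextic.Param

/-! Density of rational points on del Pezzo manifolds of degree one with an osculating point. -/

set_option autoImplicit false

open MvPolynomial Pool.Agent.H952R2.Sextic

namespace Pool.Agent.W472.DP

variable {K : Type} [Field K] {m : ℕ}

section param

variable (a2 a4 a6 : MvPolynomial (Fin m) K) (x0 : K) (t0 : Fin m → K)

/-- the coefficients along the line with direction `D` -/
noncomputable def cf {R : Type} [CommRing R] [Algebra K R] (a : MvPolynomial (Fin m) K)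
    (D : Fin m → R) (k : ℕ) : R := (lp a (fun j => algebraMap K R (t0 j)) D).coeff k

theorem cf_map {R R' : Type} [CommRing R] [Algebra K R] [CommRing R'] [Algebra K R']
    (φ : R →ₐ[K] R') (a : MvPolynomial (Fin m) K) (D : Fin m → R) (k : ℕ) :
    φ (cf t0 a D k) = cf t0 a (fun j => φ (D j)) k := by
  rw [cf, lp_coeff_map, cf]
  simp

/-- the derivative with respect to `x` at the base point -/
noncomputable def hx : K := 3 * x0 ^ 2 + 2 * eval t0 a2 * x0 + eval t0 a4

noncomputable def xi {R : Type} [CommRing R] [Algebra K R] (D : Fin m → R) : R :=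
  algebraMap K R (-(hx a2 a4 x0 t0)⁻¹) * (cf t0 a2 D 1 * algebraMap K R x0 ^ 2 +
    cf t0 a4 D 1 * algebraMap K R x0 + cf t0 a6 D 1)

noncomputable def ee {R : Type} [CommRing R] [Algebra K R] (D : Fin m → R) : R :=
  3 * algebraMap K R x0 * xi a2 a4 a6 x0 t0 D ^ 2 + cf t0 a2 D 0 * xi a2 a4 a6 x0 t0 D ^ 2 +
    cf t0 a2 D 1 * (2 * algebraMap K R x0 * xi a2 a4 a6 x0 t0 D) +
    cf t0 a2 D 2 * algebraMap K R x0 ^ 2 + cf t0 a4 D 1 * xi a2 a4 a6 x0 t0 D +
    cf t0 a4 D 2 * algebraMap K R x0 + cf t0 a6 D 2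

noncomputable def ta {R : Type} [CommRing R] [Algebra K R] (D : Fin m → R) (u : R) : R :=
  algebraMap K R (hx a2 a4 x0 t0)⁻¹ * (u ^ 2 - ee a2 a4 a6 x0 t0 D)

noncomputable def Ph {R : Type} [CommRing R] [Algebra K R] (D : Fin m → R) (u : R) :
    Polynomial R :=
  cub (lp a2 (fun j => algebraMap K R (t0 j)) D) (lp a4 (fun j => algebraMap K R (t0 j)) D)
    (lp a6 (fun j => algebraMap K R (t0 j)) D)
    (qd (algebraMap K R x0) (xi a2 a4 a6 x0 t0 D) (ta a2 a4 a6 x0 t0 D u))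

variable {R R' : Type} [CommRing R] [Algebra K R] [CommRing R'] [Algebra K R'] (φ : R →ₐ[K] R')

theorem xi_map (D : Fin m → R) :
    φ (xi a2 a4 a6 x0 t0 D) = xi a2 a4 a6 x0 t0 (fun j => φ (D j)) := by
  simp only [xi, map_mul, map_add, map_pow, cf_map, AlgHom.commutes]

theorem ee_map (D : Fin m → R) :
    φ (ee a2 a4 a6 x0 t0 D) = ee a2 a4 a6 x0 t0 (fun j => φ (D j)) := by
  simp only [ee, map_mul, map_add, map_pow, cf_map, AlgHom.commutes, xi_map, map_ofNat]

theorem ta_map (D : Fin m → R) (u : R) :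
    φ (ta a2 a4 a6 x0 t0 D u) = ta a2 a4 a6 x0 t0 (fun j => φ (D j)) (φ u) := by
  simp only [ta, map_mul, map_sub, map_pow, ee_map, AlgHom.commutes]

theorem Ph_map (D : Fin m → R) (u : R) :
    (Ph a2 a4 a6 x0 t0 D u).map (φ : R →+* R') =
      Ph a2 a4 a6 x0 t0 (fun j => φ (D j)) (φ u) := by
  rw [Ph, cub_map, lp_map, lp_map, lp_map, Ph]
  simp [xi_map, ta_map]

theorem cf_zero (a : MvPolynomial (Fin m) K) (D : Fin m → R) :
    cf t0 a D 0 = algebraMap K R (eval t0 a) := by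
  rw [cf, lp_coeff_zero]
  have := MvPolynomial.comp_aeval_apply (f := t0) (Algebra.ofId K R) a
  rw [← aeval_eval]
  exact this.symm

theorem Ph_coeffs (D : Fin m → R) (u : R)
    (h0 : x0 ^ 3 + eval t0 a2 * x0 ^ 2 + eval t0 a4 * x0 + eval t0 a6 = 0)
    (hh : hx a2 a4 x0 t0 ≠ 0) :
    (Ph a2 a4 a6 x0 t0 D u).coeff 0 = 0 ∧ (Ph a2 a4 a6 x0 t0 D u).coeff 1 = 0 ∧
      (Ph a2 a4 a6 x0 t0 D u).coeff 2 = u ^ 2 := by
  have hinv : algebraMap K R (hx a2 a4 x0 t0)⁻¹ * (3 * algebraMap K R x0 ^ 2 +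
      2 * cf t0 a2 D 0 * algebraMap K R x0 + cf t0 a4 D 0) = 1 := by
    rw [cf_zero, cf_zero]
    have : (3 * algebraMap K R x0 ^ 2 + 2 * algebraMap K R (eval t0 a2) * algebraMap K R x0 +
      algebraMap K R (eval t0 a4)) = algebraMap K R (hx a2 a4 x0 t0) := by
      simp only [hx, map_add, map_mul, map_pow, map_ofNat]
    rw [this, ← map_mul, inv_mul_cancel₀ hh, map_one]
  have h0' : algebraMap K R x0 ^ 3 + cf t0 a2 D 0 * algebraMap K R x0 ^ 2 +
      cf t0 a4 D 0 * algebraMap K R x0 + cf t0 a6 D 0 = 0 := by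
    rw [cf_zero, cf_zero, cf_zero, ← map_pow, ← map_pow, ← map_mul, ← map_mul, ← map_add,
      ← map_add, ← map_add, h0, map_zero]
  obtain ⟨c0, c1, c2, -⟩ := cub_coeffs (lp a2 (fun j => algebraMap K R (t0 j)) D)
    (lp a4 (fun j => algebraMap K R (t0 j)) D) (lp a6 (fun j => algebraMap K R (t0 j)) D)
    (algebraMap K R x0) (xi a2 a4 a6 x0 t0 D) (ta a2 a4 a6 x0 t0 D u)
  refine ⟨?_, ?_, ?_⟩
  · rw [Ph, c0]
    exact h0'
  · rw [Ph, c1]
    change 3 * algebraMap K R x0 ^ 2 * xi a2 a4 a6 x0 t0 D +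
      cf t0 a2 D 0 * (2 * algebraMap K R x0 * xi a2 a4 a6 x0 t0 D) +
      cf t0 a2 D 1 * algebraMap K R x0 ^ 2 + cf t0 a4 D 0 * xi a2 a4 a6 x0 t0 D +
      cf t0 a4 D 1 * algebraMap K R x0 + cf t0 a6 D 1 = 0
    rw [xi, map_neg]
    linear_combination (-(cf t0 a2 D 1 * algebraMap K R x0 ^ 2 +
      cf t0 a4 D 1 * algebraMap K R x0 + cf t0 a6 D 1)) * hinv
  · rw [Ph, c2]
    have e1 : ee a2 a4 a6 x0 t0 D = 3 * algebraMap K R x0 * xi a2 a4 a6 x0 t0 D ^ 2 +
      cf t0 a2 D 0 * xi a2 a4 a6 x0 t0 D ^ 2 +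
      cf t0 a2 D 1 * (2 * algebraMap K R x0 * xi a2 a4 a6 x0 t0 D) +
      cf t0 a2 D 2 * algebraMap K R x0 ^ 2 + cf t0 a4 D 1 * xi a2 a4 a6 x0 t0 D +
      cf t0 a4 D 2 * algebraMap K R x0 + cf t0 a6 D 2 := rfl
    change 3 * algebraMap K R x0 ^ 2 * ta a2 a4 a6 x0 t0 D u +
      3 * algebraMap K R x0 * xi a2 a4 a6 x0 t0 D ^ 2 +
      cf t0 a2 D 0 * (xi a2 a4 a6 x0 t0 D ^ 2 +
        2 * algebraMap K R x0 * ta a2 a4 a6 x0 t0 D u) +
      cf t0 a2 D 1 * (2 * algebraMap K R x0 * xi a2 a4 a6 x0 t0 D) +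
      cf t0 a2 D 2 * algebraMap K R x0 ^ 2 + cf t0 a4 D 0 * ta a2 a4 a6 x0 t0 D u +
      cf t0 a4 D 1 * xi a2 a4 a6 x0 t0 D + cf t0 a4 D 2 * algebraMap K R x0 + cf t0 a6 D 2 = u ^ 2
    rw [ta]
    linear_combination (u ^ 2 - ee a2 a4 a6 x0 t0 D) * hinv - e1

theorem Ph_natDegree (hF : DPDefs.AreForms a2 a4 a6) (D : Fin m → R) (u : R) :
    (Ph a2 a4 a6 x0 t0 D u).natDegree ≤ 6 :=
  cub_natDegree (lp_natDegree_le hF.1.totalDegree_le _ _)
    (lp_natDegree_le hF.2.1.totalDegree_le _ _) (lp_natDegree_le hF.2.2.totalDegree_le _ _) _ _ _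

theorem Ph_eval (hF : DPDefs.AreForms a2 a4 a6) (D : Fin m → R) (u : R)
    (h0 : x0 ^ 3 + eval t0 a2 * x0 ^ 2 + eval t0 a4 * x0 + eval t0 a6 = 0)
    (hh : hx a2 a4 x0 t0 ≠ 0) (s : R) :
    (Ph a2 a4 a6 x0 t0 D u).eval s = s ^ 2 * (u ^ 2 + (Ph a2 a4 a6 x0 t0 D u).coeff 3 * s +
      (Ph a2 a4 a6 x0 t0 D u).coeff 4 * s ^ 2 + (Ph a2 a4 a6 x0 t0 D u).coeff 5 * s ^ 3 +
      (Ph a2 a4 a6 x0 t0 D u).coeff 6 * s ^ 4) := by
  obtain ⟨c0, c1, c2⟩ := Ph_coeffs a2 a4 a6 x0 t0 D u h0 hh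
  rw [Polynomial.eval_eq_sum_range' (n := 7)
    (lt_of_le_of_lt (Ph_natDegree a2 a4 a6 x0 t0 hF D u) (by norm_num))]
  simp only [Finset.sum_range_succ, Finset.sum_range_zero, c0, c1, c2]
  ring

end param

/-- Density in the `(x, t)`-space. -/
theorem density_base [CharZero K] [Algebra.IsAlgebraic ℚ K] {M : Type} [Field M] [Algebra K M]
    [IsAlgClosed M] {a2 a4 a6 : MvPolynomial (Fin m) K} (hF : DPDefs.AreForms a2 a4 a6)
    (hosc : DPDefs.HasOsculatingPoint a2 a4 a6) (N : MvPolynomial (Option (Fin m)) M)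
    (hN : ∀ (x : K) (t : Fin m → K), (x ≠ 0 ∨ t ≠ 0) → (∃ y, y ^ 2 = DPDefs.rhs a2 a4 a6 x t) →
      eval (fun o : Option (Fin m) => o.elim (algebraMap K M x)
        (fun j => algebraMap K M (t j))) N = 0) : N = 0 := by
  classical
  have : Infinite M := IsAlgClosed.instInfinite
  obtain ⟨x0, ξ0, τ0, t0, D0, hh, Φ, hΦ, p0, p1, p2, p3⟩ := hosc
  change hx a2 a4 x0 t0 ≠ 0 at hh
  rw [rhs_eq] at hΦ
  obtain ⟨c0, c1, c2, -⟩ := cub_coeffs (lp a2 t0 D0) (lp a4 t0 D0) (lp a6 t0 D0) x0 ξ0 τ0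
  rw [← hΦ] at c0 c1 c2
  rw [p0] at c0
  rw [p1] at c1
  rw [p2] at c2
  have z2 : ∀ a : MvPolynomial (Fin m) K, (lp a t0 D0).coeff 0 = eval t0 a := fun a => by
    rw [lp_coeff_zero, aeval_eval]
  have h0 : x0 ^ 3 + eval t0 a2 * x0 ^ 2 + eval t0 a4 * x0 + eval t0 a6 = 0 := by
    rw [z2, z2, z2] at c0
    exact c0.symm
  -- the base point has the right parameters
  have cfK : ∀ (a : MvPolynomial (Fin m) K) (D : Fin m → K) (k : ℕ),
      cf t0 a D k = (lp a t0 D).coeff k := fun a D k => rfl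
  have hhx : hx a2 a4 x0 t0 = 3 * x0 ^ 2 + 2 * eval t0 a2 * x0 + eval t0 a4 := rfl
  have hxi : xi a2 a4 a6 x0 t0 D0 = ξ0 := by
    have e : hx a2 a4 x0 t0 * ξ0 = -((lp a2 t0 D0).coeff 1 * x0 ^ 2 + (lp a4 t0 D0).coeff 1 * x0 +
        (lp a6 t0 D0).coeff 1) := by
      rw [z2, z2] at c1
      rw [hhx]
      linear_combination -c1
    rw [xi, cfK, cfK, cfK]
    simp only [Algebra.algebraMap_self, RingHom.id_apply]
    rw [neg_mul, ← mul_neg, ← e, ← mul_assoc, inv_mul_cancel₀ hh, one_mul]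
  have hta : ta a2 a4 a6 x0 t0 D0 0 = τ0 := by
    have e : hx a2 a4 x0 t0 * τ0 = 0 ^ 2 - ee a2 a4 a6 x0 t0 D0 := by
      rw [ee, hxi]
      simp only [cfK, Algebra.algebraMap_self, RingHom.id_apply]
      rw [z2, z2] at c2
      rw [z2, hhx]
      linear_combination -c2
    rw [ta, ← e]
    simp only [Algebra.algebraMap_self, RingHom.id_apply]
    rw [← mul_assoc, inv_mul_cancel₀ hh, one_mul]
  have hPh0 : Ph a2 a4 a6 x0 t0 D0 0 = Φ := by
    rw [hΦ, Ph, hxi, hta]
    rfl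
  -- parameters
  set DS : Fin m → MvPolynomial (Option (Fin m)) K := fun j => X (some j) with hDS
  set uS : MvPolynomial (Option (Fin m)) K := X none with huS
  set PS : Polynomial (MvPolynomial (Option (Fin m)) K) := Ph a2 a4 a6 x0 t0 DS uS with hPS
  have evPS : ∀ v : Option (Fin m) → K, PS.map (eval v) =
      Ph a2 a4 a6 x0 t0 (fun j => v (some j)) (v none) := by
    intro v
    have e2 : ((aeval v : MvPolynomial (Option (Fin m)) K →ₐ[K] K) :
        MvPolynomial (Option (Fin m)) K →+* K) = eval v := RingHom.ext fun p => aeval_eval v p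
    rw [← e2, hPS, Ph_map]
    simp [hDS, huS]
  have evc : ∀ (v : Option (Fin m) → K) (k : ℕ), eval v (PS.coeff k) =
      (Ph a2 a4 a6 x0 t0 (fun j => v (some j)) (v none)).coeff k := by
    intro v k
    rw [← evPS, Polynomial.coeff_map]
  -- the point over `M`
  set DM : Fin m → MvPolynomial (Option (Fin m)) M := fun j => X (some j) with hDM
  set xP : Polynomial (MvPolynomial (Option (Fin m)) M) := qd (algebraMap K (MvPolynomial (Option (Fin m)) M) x0) (xi a2 a4 a6 x0 t0 DM)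
    (ta a2 a4 a6 x0 t0 DM (X none)) with hxP
  set tP : Fin m → Polynomial (MvPolynomial (Option (Fin m)) M) := fun j => Polynomial.C (algebraMap K (MvPolynomial (Option (Fin m)) M) (t0 j)) +
    Polynomial.C (DM j) * Polynomial.X with htP
  set N' : MvPolynomial (Option (Fin m)) M := X none * N with hN'
  set P : Polynomial (MvPolynomial (Option (Fin m)) M) := aeval (fun o : Option (Fin m) => o.elim xP tP) N' with hP
  have evP : ∀ (v : Option (Fin m) → M) (s : M), (P.map (eval v)).eval s =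
      eval (fun o : Option (Fin m) => o.elim
        (algebraMap K M x0 + xi a2 a4 a6 x0 t0 (fun j => v (some j)) * s +
          ta a2 a4 a6 x0 t0 (fun j => v (some j)) (v none) * s ^ 2)
        (fun j => algebraMap K M (t0 j) + v (some j) * s)) N' := by
    intro v s
    have h := MvPolynomial.comp_aeval_apply
      (f := fun o : Option (Fin m) => o.elim xP tP)
      (((Polynomial.aeval s : Polynomial M →ₐ[M] M)).comp
        (Polynomial.mapAlgHom (aeval v : MvPolynomial (Option (Fin m)) M →ₐ[M] M))) N'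
    rw [← hP] at h
    have e2 : ((aeval v : MvPolynomial (Option (Fin m)) M →ₐ[M] M) : MvPolynomial (Option (Fin m)) M →+* M) = eval v := RingHom.ext fun p => aeval_eval v p
    simp only [AlgHom.comp_apply, Polynomial.coe_mapAlgHom, Polynomial.coe_aeval_eq_eval] at h
    rw [e2] at h
    rw [h, ← aeval_eval]
    congr 2
    funext o
    have e3 : ∀ k : K, eval v (algebraMap K (MvPolynomial (Option (Fin m)) M) k) = algebraMap K M k := by
      intro k
      rw [IsScalarTower.algebraMap_apply K M (MvPolynomial (Option (Fin m)) M), MvPolynomial.algebraMap_eq, eval_C]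
    have e4 : ∀ z : MvPolynomial (Option (Fin m)) M, eval v z = ((aeval v : MvPolynomial (Option (Fin m)) M →ₐ[M] M).restrictScalars K) z :=
      fun z => (aeval_eval v z).symm
    cases o with
    | none =>
      simp only [Option.elim_none, hxP, qd, Polynomial.map_add, Polynomial.map_mul,
        Polynomial.map_C, Polynomial.map_pow, Polynomial.map_X, Polynomial.eval_add,
        Polynomial.eval_mul, Polynomial.eval_C, Polynomial.eval_X, Polynomial.eval_pow, e3]
      rw [e4 (xi a2 a4 a6 x0 t0 DM), e4 (ta a2 a4 a6 x0 t0 DM (X none)), xi_map, ta_map]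
      simp [hDM]
    | some j =>
      simp only [Option.elim_some, htP, Polynomial.map_add, Polynomial.map_mul,
        Polynomial.map_C, Polynomial.map_X, Polynomial.eval_add,
        Polynomial.eval_mul, Polynomial.eval_C, Polynomial.eval_X, e3]
      simp [hDM]
  have algxi : ∀ D : Fin m → K, xi a2 a4 a6 x0 t0 (fun j => algebraMap K M (D j)) =
      algebraMap K M (xi a2 a4 a6 x0 t0 D) := fun D => (xi_map a2 a4 a6 x0 t0
        (Algebra.ofId K M) D).symm
  have algta : ∀ (D : Fin m → K) (u : K), ta a2 a4 a6 x0 t0 (fun j => algebraMap K M (D j))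
      (algebraMap K M u) = algebraMap K M (ta a2 a4 a6 x0 t0 D u) := fun D u =>
        (ta_map a2 a4 a6 x0 t0 (Algebra.ofId K M) D u).symm
  have hPz : P = 0 := by
    refine thmG (K := K) (M := M) uS (PS.coeff 3) (PS.coeff 4) (PS.coeff 5) (PS.coeff 6)
      (fun o : Option (Fin m) => o.elim 0 D0) (by simp [huS]) (X_ne_zero _) ?_ P ?_
    · rw [evc]
      simp only [Option.elim_none, Option.elim_some]
      rw [hPh0]
      exact p3
    · rintro v s ⟨w, hw⟩
      rw [evP, algxi, algta]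
      have hsq : (s * w) ^ 2 = DPDefs.rhs a2 a4 a6 (x0 + xi a2 a4 a6 x0 t0 (fun j => v (some j)) *
          s + ta a2 a4 a6 x0 t0 (fun j => v (some j)) (v none) * s ^ 2)
          (fun j => t0 j + v (some j) * s) := by
        have e5 := cub_eval a2 a4 a6 x0 (xi a2 a4 a6 x0 t0 (fun j => v (some j)))
          (ta a2 a4 a6 x0 t0 (fun j => v (some j)) (v none)) t0 (fun j => v (some j)) s
        rw [← e5]
        have e6 := Ph_eval a2 a4 a6 x0 t0 hF (fun j => v (some j)) (v none) h0 hh s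
        rw [mul_pow, hw]
        simp only [evc, huS, eval_X]
        exact e6.symm
      set x1 := x0 + xi a2 a4 a6 x0 t0 (fun j => v (some j)) *
          s + ta a2 a4 a6 x0 t0 (fun j => v (some j)) (v none) * s ^ 2 with hx1
      have e7 : (fun o : Option (Fin m) => o.elim
          (algebraMap K M x0 + algebraMap K M (xi a2 a4 a6 x0 t0 fun j => v (some j)) *
            algebraMap K M s + algebraMap K M (ta a2 a4 a6 x0 t0 (fun j => v (some j)) (v none)) *
            algebraMap K M s ^ 2)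
          (fun j => algebraMap K M (t0 j) + algebraMap K M (v (some j)) * algebraMap K M s)) =
          fun o : Option (Fin m) => o.elim (algebraMap K M x1)
            (fun j => algebraMap K M (t0 j + v (some j) * s)) := by
        funext o
        cases o with
        | none => simp [hx1]
        | some j => simp
      rw [e7, hN', map_mul, eval_X]
      by_cases hx0 : x1 = 0
      · simp [hx0]
      · rw [hN x1 (fun j => t0 j + v (some j) * s) (Or.inl hx0) ⟨_, hsq⟩, mul_zero]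
  have hN'z : N' = 0 := by
    apply MvPolynomial.funext
    intro z
    rw [map_zero]
    set D : Fin m → M := fun j => z (some j) - algebraMap K M (t0 j) with hD
    obtain ⟨u, hu⟩ := IsAlgClosed.exists_pow_nat_eq
      (algebraMap K M (hx a2 a4 x0 t0) * (z none - algebraMap K M x0 - xi a2 a4 a6 x0 t0 D) +
        ee a2 a4 a6 x0 t0 D) (n := 2) (by norm_num)
    have h1 := evP (fun o : Option (Fin m) => o.elim u D) 1
    rw [hPz, Polynomial.map_zero, Polynomial.eval_zero] at h1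
    rw [h1]
    congr 2
    funext o
    cases o with
    | none =>
      have hinv : algebraMap K M (hx a2 a4 x0 t0)⁻¹ * algebraMap K M (hx a2 a4 x0 t0) = 1 := by
        rw [← map_mul, inv_mul_cancel₀ hh, map_one]
      simp only [Option.elim_none, Option.elim_some, ta, hu]
      change _ = algebraMap K M x0 + xi a2 a4 a6 x0 t0 D * 1 + algebraMap K M (hx a2 a4 x0 t0)⁻¹ *
        (_ - ee a2 a4 a6 x0 t0 D) * 1 ^ 2
      linear_combination (-(z none - algebraMap K M x0 - xi a2 a4 a6 x0 t0 D)) * hinv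
    | some j => simp [hD]
  rw [hN'] at hN'z
  exact (mul_eq_zero.mp hN'z).resolve_left (X_ne_zero _)

end Pool.Agent.W472.DP
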