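import Pool.Agent.W472.DPCover
import Pool.Agent.W472.DPBranch
import Pool.Agent.H952R2.Sextic.Descent

/-! Existence of an osculating point on smooth del Pezzo manifolds of degree one. -/

set_option autoImplicit false

open MvPolynomial Pool.Agent.H952R2.Sextic

namespace Pool.Agent.W472.DP

section closed

variable {K : Type} [Field K] {m : ℕ}

/-- A smooth one has no polynomial section of the ramification divisor. -/
theorem no_section [IsAlgClosed K] [CharZero K] (hm : 2 ≤ m) {a2 a4 a6 : MvPolynomial (Fin m) K}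
    (hF : DPDefs.AreForms a2 a4 a6)
    (hsm : ∀ (x : K) (t : Fin m → K), DPDefs.rhs a2 a4 a6 x t = 0 →
      3 * x ^ 2 + 2 * aeval t a2 * x + aeval t a4 = 0 →
      (∀ j, aeval t (pderiv j a2) * x ^ 2 + aeval t (pderiv j a4) * x +
        aeval t (pderiv j a6) = 0) → t = 0)
    (q : MvPolynomial (Fin m) K) (hq : ∀ t, DPDefs.rhs a2 a4 a6 (eval t q) t = 0) : False := by
  classical
  have : Infinite K := IsAlgClosed.instInfinite
  have z2 : ∀ (a : MvPolynomial (Fin m) K) (d : ℕ), a.IsHomogeneous d → d ≠ 0 →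
      aeval (0 : Fin m → K) a = 0 := by
    intro a d ha hd
    have := aeval_homog (R := K) ha 0 (0 : Fin m → K)
    rw [zero_pow hd, zero_mul] at this
    simpa using this
  have e2 := z2 a2 2 hF.1 (by norm_num)
  have e4 := z2 a4 4 hF.2.1 (by norm_num)
  have e6 := z2 a6 6 hF.2.2 (by norm_num)
  have hq0 : eval 0 q = 0 := by
    have := hq 0
    rw [DPDefs.rhs, e2, e4, e6] at this
    have h3 : (eval 0 q) ^ 3 = 0 := by linear_combination this
    exact pow_eq_zero_iff (by norm_num) |>.mp h3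
  obtain ⟨t1, ht1, ht⟩ := exists_common_zero (κ := Unit) (by simp; omega)
    (fun _ => 3 * q ^ 2 + 2 * a2 * q + a4) (by
      intro _
      rw [aeval_eval] at e2 e4
      simp only [map_add, map_mul, map_pow, map_ofNat, hq0, e4]
      ring)
  have hH : q ^ 3 + a2 * q ^ 2 + a4 * q + a6 = 0 := by
    apply MvPolynomial.funext
    intro t
    have := hq t
    rw [DPDefs.rhs, aeval_eval, aeval_eval, aeval_eval] at this
    simpa using this
  have ht' := ht ()
  simp only [map_add, map_mul, map_pow, map_ofNat] at ht'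
  refine ht1 (hsm (eval t1 q) t1 (hq t1) (by simpa [aeval_eval] using ht') fun j => ?_)
  have h1 := congrArg (fun p => eval t1 (pderiv j p)) hH
  simp only [map_add, Derivation.leibniz, Derivation.leibniz_pow, smul_eq_mul, nsmul_eq_mul,
    map_zero, map_mul, map_pow, map_natCast] at h1
  rw [aeval_eval, aeval_eval, aeval_eval]
  push_cast at h1
  linear_combination h1 - eval t1 (pderiv j q) * ht'

theorem exists_simple_point [IsAlgClosed K] [CharZero K] (hm : 2 ≤ m)
    {a2 a4 a6 : MvPolynomial (Fin m) K} (hF : DPDefs.AreForms a2 a4 a6)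
    (hsm : ∀ (x : K) (t : Fin m → K), DPDefs.rhs a2 a4 a6 x t = 0 →
      3 * x ^ 2 + 2 * aeval t a2 * x + aeval t a4 = 0 →
      (∀ j, aeval t (pderiv j a2) * x ^ 2 + aeval t (pderiv j a4) * x +
        aeval t (pderiv j a6) = 0) → t = 0) :
    ∃ (x0 : K) (t0 : Fin m → K), DPDefs.rhs a2 a4 a6 x0 t0 = 0 ∧ hx a2 a4 x0 t0 ≠ 0 := by
  by_contra hcon
  push Not at hcon
  refine no_section hm hF hsm (C (-(3 : K)⁻¹) * a2) fun t => ?_
  have h3 : (3 : K) ≠ 0 := three_ne_zero
  obtain ⟨r, hr⟩ := IsAlgClosed.exists_root (Polynomial.X ^ 3 + Polynomial.C (eval t a2) *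
    Polynomial.X ^ 2 + Polynomial.C (eval t a4) * Polynomial.X + Polynomial.C (eval t a6)) (by
      have : (Polynomial.X ^ 3 + Polynomial.C (eval t a2) * Polynomial.X ^ 2 +
        Polynomial.C (eval t a4) * Polynomial.X + Polynomial.C (eval t a6)).degree = 3 := by
        compute_degree!
      rw [this]
      norm_num)
  simp only [Polynomial.IsRoot.def, Polynomial.eval_add, Polynomial.eval_mul, Polynomial.eval_pow,
    Polynomial.eval_X, Polynomial.eval_C] at hr
  have h1 := hcon r t (by rw [DPDefs.rhs, aeval_eval, aeval_eval, aeval_eval]; exact hr)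
  rw [hx] at h1
  set r' := -eval t a2 - 2 * r with hr'
  have h2 := hcon r' t (by
    rw [DPDefs.rhs, aeval_eval, aeval_eval, aeval_eval]
    have : r' ^ 3 + eval t a2 * r' ^ 2 + eval t a4 * r' + eval t a6 =
      (r' - r) ^ 2 * (r' + eval t a2 + 2 * r) := by
      linear_combination hr + (r' - r) * h1
    rw [this, hr']
    ring)
  rw [hx] at h2
  have h4 : (r' - r) ^ 2 = 0 := by
    linear_combination h2 - h1 - 2 * (r' - r) * (hr')
  have h5 : r' - r = 0 := pow_eq_zero_iff two_ne_zero |>.mp h4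
  have h6 : eval t (C (-(3 : K)⁻¹) * a2) = r := by
    rw [map_mul, eval_C]
    have : eval t a2 = -3 * r := by
      rw [hr'] at h5
      linear_combination -h5
    rw [this]
    field_simp
  rw [h6, DPDefs.rhs, aeval_eval, aeval_eval, aeval_eval]
  exact hr

theorem lp_taylor (a : MvPolynomial (Fin m) K) [Infinite K] (t D : Fin m → K) (s : K) :
    Polynomial.taylor s (lp a t D) = lp a (fun j => t j + D j * s) D := by
  apply Polynomial.funext
  intro z
  rw [Polynomial.taylor_eval, lp_eval, lp_eval]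
  congr 2
  funext j
  ring

theorem exists_osc [IsAlgClosed K] [CharZero K] (hm : 2 ≤ m)
    {a2 a4 a6 : MvPolynomial (Fin m) K} (hF : DPDefs.AreForms a2 a4 a6)
    (hsm : ∀ (x : K) (t : Fin m → K), DPDefs.rhs a2 a4 a6 x t = 0 →
      3 * x ^ 2 + 2 * aeval t a2 * x + aeval t a4 = 0 →
      (∀ j, aeval t (pderiv j a2) * x ^ 2 + aeval t (pderiv j a4) * x +
        aeval t (pderiv j a6) = 0) → t = 0) : DPDefs.HasOsculatingPoint a2 a4 a6 := by
  classical
  have : Infinite K := IsAlgClosed.instInfinite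
  obtain ⟨x0, t0, h0, hh⟩ := exists_simple_point hm hF hsm
  have hbz : ∀ B : Polynomial K, hb B 0 (0 : K) = B.coeff 0 := by
    intro B
    rw [hb, Polynomial.hasseDeriv_zero', Polynomial.coe_aeval_eq_eval,
      Polynomial.coeff_zero_eq_eval_zero]
  have lpz : ∀ (a : MvPolynomial (Fin m) K) (D : Fin m → K), (lp a t0 D).coeff 0 = eval t0 a :=
    fun a D => by rw [lp_coeff_zero, aeval_eval]
  have hx0 : ∀ D : Fin m → K, kx (lp a2 t0 D) (lp a4 t0 D) (0 : K) x0 = hx a2 a4 x0 t0 := by
    intro D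
    rw [kx, hbz, hbz, lpz, lpz, hx]
  have hk0 : ∀ D : Fin m → K, k0 (lp a2 t0 D) (lp a4 t0 D) (lp a6 t0 D) (0 : K) x0 = 0 := by
    intro D
    rw [k0, hbz, hbz, hbz, lpz, lpz, lpz, ← h0, DPDefs.rhs, aeval_eval, aeval_eval, aeval_eval]
  by_cases hex : ∃ (D : Fin m → K) (s x ξ τ : K), kx (lp a2 t0 D) (lp a4 t0 D) s x ≠ 0 ∧
      k0 (lp a2 t0 D) (lp a4 t0 D) (lp a6 t0 D) s x = 0 ∧
      k1 (lp a2 t0 D) (lp a4 t0 D) (lp a6 t0 D) s x ξ = 0 ∧
      k2 (lp a2 t0 D) (lp a4 t0 D) (lp a6 t0 D) s x ξ τ = 0 ∧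
      k3 (lp a2 t0 D) (lp a4 t0 D) (lp a6 t0 D) s x ξ τ ≠ 0
  · obtain ⟨D, s, x, ξ, τ, g, g0, g1, g2, g3⟩ := hex
    obtain ⟨c0, c1, c2, c3⟩ := cub_taylor_coeffs (lp a2 t0 D) (lp a4 t0 D) (lp a6 t0 D) s x ξ τ
    rw [lp_taylor, lp_taylor, lp_taylor] at c0 c1 c2 c3
    refine ⟨x, ξ, τ, fun j => t0 j + D j * s, D, ?_, _, rfl, ?_, ?_, ?_, ?_⟩
    · have e : ∀ a : MvPolynomial (Fin m) K, hb (lp a t0 D) 0 s =
          eval (fun j => t0 j + D j * s) a := by
        intro a
        rw [hb, Polynomial.hasseDeriv_zero', Polynomial.coe_aeval_eq_eval, lp_eval, aeval_eval]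
      rw [kx, e, e] at g
      exact g
    · rw [rhs_eq, c0, g0]
    · rw [rhs_eq, c1, g1]
    · rw [rhs_eq, c2, g2]
    · rw [rhs_eq, c3]
      exact g3
  · exfalso
    have hall : ∀ D : Fin m → K, ∃ ξ τ : K,
        cub (lp a2 t0 D) (lp a4 t0 D) (lp a6 t0 D) (qd x0 ξ τ) = 0 := by
      intro D
      rcases branch (lp a2 t0 D) (lp a4 t0 D) (lp a6 t0 D) x0 (hk0 D)
        (by rw [hx0]; exact hh) with ⟨s, x, ξ, τ, g⟩ | h
      · exact absurd ⟨D, s, x, ξ, τ, g⟩ hex
      · exact h
    have huniq : ∀ D : Fin m → K, cub (lp a2 t0 D) (lp a4 t0 D) (lp a6 t0 D)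
        (qd x0 (xi a2 a4 a6 x0 t0 D) (ta a2 a4 a6 x0 t0 D 0)) = 0 := by
      intro D
      obtain ⟨ξ, τ, hc⟩ := hall D
      obtain ⟨-, c1, c2, -⟩ := cub_coeffs (lp a2 t0 D) (lp a4 t0 D) (lp a6 t0 D) x0 ξ τ
      rw [hc, Polynomial.coeff_zero, lpz, lpz] at c1
      rw [hc, Polynomial.coeff_zero, lpz, lpz] at c2
      have cfK : ∀ (a : MvPolynomial (Fin m) K) (k : ℕ),
        cf t0 a D k = (lp a t0 D).coeff k := fun a k => rfl
      have hhx : hx a2 a4 x0 t0 = 3 * x0 ^ 2 + 2 * eval t0 a2 * x0 + eval t0 a4 := rfl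
      have hxi : xi a2 a4 a6 x0 t0 D = ξ := by
        have e : hx a2 a4 x0 t0 * ξ = -((lp a2 t0 D).coeff 1 * x0 ^ 2 + (lp a4 t0 D).coeff 1 * x0 +
            (lp a6 t0 D).coeff 1) := by
          rw [hhx]
          linear_combination -c1
        rw [xi, cfK, cfK, cfK]
        simp only [Algebra.algebraMap_self, RingHom.id_apply]
        rw [neg_mul, ← mul_neg, ← e, ← mul_assoc, inv_mul_cancel₀ hh, one_mul]
      have hta : ta a2 a4 a6 x0 t0 D 0 = τ := by
        have e : hx a2 a4 x0 t0 * τ = 0 ^ 2 - ee a2 a4 a6 x0 t0 D := by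
          rw [ee, hxi]
          simp only [cfK, Algebra.algebraMap_self, RingHom.id_apply]
          rw [lpz, hhx]
          linear_combination -c2
        rw [ta, ← e]
        simp only [Algebra.algebraMap_self, RingHom.id_apply]
        rw [← mul_assoc, inv_mul_cancel₀ hh, one_mul]
      rw [hxi, hta, hc]
    set Dv : Fin m → MvPolynomial (Fin m) K := fun j => X j - C (t0 j) with hDv
    refine no_section hm hF hsm (C x0 + xi a2 a4 a6 x0 t0 Dv + ta a2 a4 a6 x0 t0 Dv 0)
      fun t => ?_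
    have e1 := xi_map a2 a4 a6 x0 t0 (aeval t : MvPolynomial (Fin m) K →ₐ[K] K) Dv
    have e2 := ta_map a2 a4 a6 x0 t0 (aeval t : MvPolynomial (Fin m) K →ₐ[K] K) Dv 0
    rw [map_zero] at e2
    have e3 : (fun j => (aeval t : MvPolynomial (Fin m) K →ₐ[K] K) (Dv j)) =
        fun j => t j - t0 j := by
      funext j
      simp [hDv, aeval_eval]
    rw [e3] at e1 e2
    rw [map_add, map_add, eval_C, ← aeval_eval t (xi a2 a4 a6 x0 t0 Dv),
      ← aeval_eval t (ta a2 a4 a6 x0 t0 Dv 0), e1, e2]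
    have e4 := cub_eval a2 a4 a6 x0 (xi a2 a4 a6 x0 t0 (fun j => t j - t0 j))
      (ta a2 a4 a6 x0 t0 (fun j => t j - t0 j) 0) t0 (fun j => t j - t0 j) 1
    rw [huniq, Polynomial.eval_zero] at e4
    refine Eq.trans ?_ e4.symm
    congr 1
    · ring
    · funext j
      ring

end closed

/-- The osculating point descends. -/
theorem osc_descend {k L kb : Type} [Field k] [Field L] [Field kb] [Algebra k L] [Algebra k kb]
    [Algebra L kb] [IsScalarTower k L kb] {m : ℕ} (a2 a4 a6 : MvPolynomial (Fin m) k)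
    (x0 ξ τ : L) (t0 D : Fin m → L)
    (h : 3 * (algebraMap L kb x0) ^ 2 + 2 * eval (fun j => algebraMap L kb (t0 j))
      (MvPolynomial.map (algebraMap k kb) a2) * algebraMap L kb x0 +
      eval (fun j => algebraMap L kb (t0 j)) (MvPolynomial.map (algebraMap k kb) a4) ≠ 0)
    (Φ : Polynomial kb)
    (hΦ : Φ = cub (lp (MvPolynomial.map (algebraMap k kb) a2) (fun j => algebraMap L kb (t0 j))
        (fun j => algebraMap L kb (D j)))
      (lp (MvPolynomial.map (algebraMap k kb) a4) (fun j => algebraMap L kb (t0 j))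
        (fun j => algebraMap L kb (D j)))
      (lp (MvPolynomial.map (algebraMap k kb) a6) (fun j => algebraMap L kb (t0 j))
        (fun j => algebraMap L kb (D j)))
      (qd (algebraMap L kb x0) (algebraMap L kb ξ) (algebraMap L kb τ)))
    (h0 : Φ.coeff 0 = 0) (h1 : Φ.coeff 1 = 0) (h2 : Φ.coeff 2 = 0) (h3 : Φ.coeff 3 ≠ 0) :
    DPDefs.HasOsculatingPoint (MvPolynomial.map (algebraMap k L) a2)
      (MvPolynomial.map (algebraMap k L) a4) (MvPolynomial.map (algebraMap k L) a6) := by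
  have inj := (algebraMap L kb).injective
  have elp : ∀ a : MvPolynomial (Fin m) k,
      (lp (MvPolynomial.map (algebraMap k L) a) t0 D).map (algebraMap L kb) =
      lp (MvPolynomial.map (algebraMap k kb) a) (fun j => algebraMap L kb (t0 j))
        (fun j => algebraMap L kb (D j)) := by
    intro a
    have := lp_map (Algebra.ofId L kb) (MvPolynomial.map (algebraMap k L) a) t0 D
    refine Eq.trans this ?_
    exact (lp_base a _ _).trans (lp_base a _ _).symm
  have hmap : (cub (lp (MvPolynomial.map (algebraMap k L) a2) t0 D)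
      (lp (MvPolynomial.map (algebraMap k L) a4) t0 D)
      (lp (MvPolynomial.map (algebraMap k L) a6) t0 D) (qd x0 ξ τ)).map (algebraMap L kb) = Φ := by
    rw [cub_map, elp, elp, elp, hΦ]
  have hc : ∀ n, algebraMap L kb ((cub (lp (MvPolynomial.map (algebraMap k L) a2) t0 D)
      (lp (MvPolynomial.map (algebraMap k L) a4) t0 D)
      (lp (MvPolynomial.map (algebraMap k L) a6) t0 D) (qd x0 ξ τ)).coeff n) = Φ.coeff n := by
    intro n
    rw [← hmap, Polynomial.coeff_map]
  have eev : ∀ a : MvPolynomial (Fin m) k,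
      algebraMap L kb (eval t0 (MvPolynomial.map (algebraMap k L) a)) =
        eval (fun j => algebraMap L kb (t0 j)) (MvPolynomial.map (algebraMap k kb) a) := by
    intro a
    have h5 := congrArg (fun p => Polynomial.coeff p 0) (elp a)
    simp only [Polynomial.coeff_map, lp_coeff_zero, aeval_eval] at h5
    exact h5
  refine ⟨x0, ξ, τ, t0, D, ?_, _, rfl, ?_, ?_, ?_, ?_⟩
  · intro h4
    apply h
    rw [← eev, ← eev]
    have := congrArg (algebraMap L kb) h4
    simpa only [map_add, map_mul, map_pow, map_ofNat, map_zero] using this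
  · rw [rhs_eq]
    exact inj (by rw [hc, h0, map_zero])
  · rw [rhs_eq]
    exact inj (by rw [hc, h1, map_zero])
  · rw [rhs_eq]
    exact inj (by rw [hc, h2, map_zero])
  · rw [rhs_eq]
    intro h4
    exact h3 (by rw [← hc, h4, map_zero])

/-- Part two. -/
theorem part2 (k : Type) [Field k] [NumberField k] (m : ℕ) (hm : 2 ≤ m)
    (a2 a4 a6 : MvPolynomial (Fin m) k) (hF : DPDefs.AreForms a2 a4 a6)
    (hsm : DPDefs.IsSmooth a2 a4 a6) :
    ∃ (L : Type) (_ : Field L) (_ : NumberField L) (_ : Algebra k L),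
      DPDefs.DensePoints (MvPolynomial.map (algebraMap k L) a2)
        (MvPolynomial.map (algebraMap k L) a4) (MvPolynomial.map (algebraMap k L) a6) := by
  classical
  have hFkb : DPDefs.AreForms (MvPolynomial.map (algebraMap k (AlgebraicClosure k)) a2)
      (MvPolynomial.map (algebraMap k (AlgebraicClosure k)) a4)
      (MvPolynomial.map (algebraMap k (AlgebraicClosure k)) a6) :=
    ⟨hF.1.map _, hF.2.1.map _, hF.2.2.map _⟩
  obtain ⟨x0, ξ, τ, t0, D, h, Φ, hΦ, h0, h1, h2, h3⟩ := exists_osc hm hFkb (by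
    intro x t g0 g1 g2
    refine hsm x t ?_ ?_ fun j => ?_
    · rw [DPDefs.rhs, aeval_base, aeval_base, aeval_base] at g0
      exact g0
    · rw [aeval_base, aeval_base] at g1
      exact g1
    · have := g2 j
      rw [pderiv_map, pderiv_map, pderiv_map, aeval_base, aeval_base, aeval_base] at this
      exact this)
  set S : Set (AlgebraicClosure k) := {x0, ξ, τ} ∪ (Set.range t0 ∪ Set.range D) with hS
  have hSfin : S.Finite := (Set.toFinite _).union
    ((Set.finite_range t0).union (Set.finite_range D))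
  set L : IntermediateField k (AlgebraicClosure k) := IntermediateField.adjoin k S with hL
  have : Finite S := hSfin.to_subtype
  have hfin : FiniteDimensional k L := IntermediateField.finiteDimensional_adjoin
    (fun x _ => (Algebra.IsAlgebraic.isAlgebraic (R := k) x).isIntegral)
  have hfinQ : FiniteDimensional ℚ L := FiniteDimensional.trans ℚ k L
  have hNF : NumberField L := ⟨⟩
  have hx : x0 ∈ L := IntermediateField.subset_adjoin k S (Or.inl (by simp))
  have hξ : ξ ∈ L := IntermediateField.subset_adjoin k S (Or.inl (by simp))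
  have hτ : τ ∈ L := IntermediateField.subset_adjoin k S (Or.inl (by simp))
  have ht : ∀ j, t0 j ∈ L := fun j => IntermediateField.subset_adjoin k S
    (Or.inr (Or.inl ⟨j, rfl⟩))
  have hD : ∀ j, D j ∈ L := fun j => IntermediateField.subset_adjoin k S
    (Or.inr (Or.inr ⟨j, rfl⟩))
  refine ⟨L, inferInstance, hNF, inferInstance, ?_⟩
  refine part1 L m _ _ _ ⟨hF.1.map _, hF.2.1.map _, hF.2.2.map _⟩ ?_
  exact osc_descend (L := L) (kb := AlgebraicClosure k) a2 a4 a6 ⟨x0, hx⟩ ⟨ξ, hξ⟩ ⟨τ, hτ⟩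
    (fun j => ⟨t0 j, ht j⟩) (fun j => ⟨D j, hD j⟩) h Φ hΦ h0 h1 h2 h3

end Pool.Agent.W472.DP
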