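import Pool.Agent.W810.KP.Defs
import Pool.Agent.H974R2.Plan4

/-!
A bounded cluster yields a dual connection between the two faces of the edge.
-/

namespace Pool.Agent.W472.KPDuc

open H974 H12S H973N Finset

theorem core {W : Vtx → Prop} {e : Edg} {n : ℤ}
    (hb : ∀ v : Vtx, W v → |v.1| ≤ n ∧ |v.2| ≤ n) (h0 : W (src e)) (heW : ¬ W (tgt e)) :
    DReach (bdry W \ {e}) (dsrc e) (dtgt e) := by
  by_contra hf1
  set G : Set Edg := bdry W \ {e} with hG
  have heb : e ∈ bdry W := by
    intro h
    exact heW (h.mp h0)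
  -- bounds on edges of `G`
  have hbT : ∀ x y : ℤ, ((x, y, true) : Edg) ∈ G → (-n - 1 ≤ x ∧ x ≤ n) ∧ (-n ≤ y ∧ y ≤ n) := by
    intro x y hg
    have h1 : ¬ (W (x, y) ↔ W (x + 1, y)) := hg.1
    by_cases h2 : W (x, y)
    · have h3 := hb _ h2
      simp only [abs_le] at h3
      omega
    · have h4 : W (x + 1, y) := by
        by_contra h5
        exact h1 ⟨fun h => absurd h h2, fun h => absurd h h5⟩
      have h3 := hb _ h4
      simp only [abs_le] at h3
      omega
  have hbF : ∀ x y : ℤ, ((x, y, false) : Edg) ∈ G → (-n ≤ x ∧ x ≤ n) ∧ (-n - 1 ≤ y ∧ y ≤ n) := by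
    intro x y hg
    have h1 : ¬ (W (x, y) ↔ W (x, y + 1)) := hg.1
    by_cases h2 : W (x, y)
    · have h3 := hb _ h2
      simp only [abs_le] at h3
      omega
    · have h4 : W (x, y + 1) := by
        by_contra h5
        exact h1 ⟨fun h => absurd h h2, fun h => absurd h h5⟩
      have h3 := hb _ h4
      simp only [abs_le] at h3
      omega
  set C : Vtx → Prop := fun f => DReach G (dsrc e) f with hC
  have hCf0 : C (dsrc e) := DReach.refl _ _
  have hCcl : ∀ g ∈ G, (C (dsrc g) ↔ C (dtgt g)) := by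
    intro g hg
    constructor
    · intro h; exact h.trans (DAdj.reach ⟨g, hg, Or.inl ⟨rfl, rfl⟩⟩)
    · intro h; exact h.trans (DAdj.reach ⟨g, hg, Or.inr ⟨rfl, rfl⟩⟩)
  set Z : Edg → ZMod 2 := fun g => b2 (g ∈ G ∧ C (dtgt g)) with hZ
  have hswap : ∀ g, Z g = b2 (g ∈ G ∧ C (dsrc g)) := by
    intro g
    apply b2_congr
    constructor
    · rintro ⟨h1, h2⟩; exact ⟨h1, (hCcl g h1).mpr h2⟩
    · rintro ⟨h1, h2⟩; exact ⟨h1, (hCcl g h1).mp h2⟩
  -- boundary of the chain
  have hbdZ : ∀ x y, bd Z x y = b2 (C (x, y)) *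
      (b2 (dsrc e = (x, y)) + b2 (dtgt e = (x, y))) := by
    intro x y
    by_cases hxy : C (x, y)
    · have hone : ∀ g : Edg, (C (dtgt g) ∨ C (dsrc g)) →
          Z g = b2 (W (src g)) + b2 (W (tgt g)) + b2 (g = e) := by
        intro g hCg
        have h1 : Z g = b2 (g ∈ G) := by
          rcases hCg with h | h
          · exact b2_congr ⟨fun k => k.1, fun k => ⟨k, h⟩⟩
          · rw [hswap]; exact b2_congr ⟨fun k => k.1, fun k => ⟨k, h⟩⟩
        rw [h1, ← b2_iff_add]
        by_cases hge : g = e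
        · subst hge
          rw [b2_of (rfl : g = g), b2_of (show ¬ (W (src g) ↔ W (tgt g)) from heb),
            b2_not_of (fun h => h.2 rfl)]
          rfl
        · rw [b2_not_of hge, add_zero]
          apply b2_congr
          constructor
          · intro h; exact h.1
          · intro h; exact ⟨h, hge⟩
      have m1 := hone (x, y, true) (Or.inl (by simpa using hxy))
      have m2 := hone (x, y + 1, true) (Or.inr (by simpa using hxy))
      have m3 := hone (x, y, false) (Or.inl (by simpa using hxy))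
      have m4 := hone (x + 1, y, false) (Or.inr (by simpa using hxy))
      simp only [src_mk, tgt_true, tgt_false] at m1 m2 m3 m4
      have hs := bd_single e x y
      unfold bd at hs ⊢
      rw [m1, m2, m3, m4, b2_of hxy, ← hs]
      have k1 := zmod2_add_self (b2 (W (x, y)))
      have k2 := zmod2_add_self (b2 (W (x + 1, y)))
      have k3 := zmod2_add_self (b2 (W (x, y + 1)))
      have k4 := zmod2_add_self (b2 (W (x + 1, y + 1)))
      linear_combination k1 + k2 + k3 + k4
    · rw [b2_not_of hxy, zero_mul]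
      have z1 : Z (x, y, true) = 0 := b2_not_of (fun h => hxy (by simpa using h.2))
      have z2 : Z (x, y + 1, true) = 0 := by
        rw [hswap]; exact b2_not_of (fun h => hxy (by simpa using h.2))
      have z3 : Z (x, y, false) = 0 := b2_not_of (fun h => hxy (by simpa using h.2))
      have z4 : Z (x + 1, y, false) = 0 := by
        rw [hswap]; exact b2_not_of (fun h => hxy (by simpa using h.2))
      unfold bd
      rw [z1, z2, z3, z4]; ring
  have hbb : ∀ x y, bd Z x y = b2 (dsrc e = (x, y)) := by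
    intro x y
    rw [hbdZ]
    by_cases hxy : C (x, y)
    · rw [b2_of hxy, one_mul]
      have n1 : ¬ (dtgt e = (x, y)) := by
        intro h
        apply hf1
        rw [h]
        exact hxy
      rw [b2_not_of n1, add_zero]
    · have n1 : ¬ (dsrc e = (x, y)) := by
        intro h; rw [h] at hCf0; exact hxy hCf0
      rw [b2_not_of hxy, b2_not_of n1, zero_mul]
  have hn0 := hb _ h0
  simp only [abs_le] at hn0
  have hZT : ∀ x y : ℤ, (x < -n - 1 ∨ n < x ∨ y < -n ∨ n < y) → Z (x, y, true) = 0 := by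
    intro x y h
    apply b2_not_of
    rintro ⟨h1, _⟩
    have := hbT x y h1
    omega
  have hZF : ∀ x y : ℤ, (x < -n ∨ n < x ∨ y < -n - 1 ∨ n < y) → Z (x, y, false) = 0 := by
    intro x y h
    apply b2_not_of
    rintro ⟨h1, _⟩
    have := hbF x y h1
    omega
  have hin : (-n - 2 ≤ (dsrc e).1 ∧ (dsrc e).1 < n + 2) ∧
      (-n - 2 ≤ (dsrc e).2 ∧ (dsrc e).2 < n + 2) := by
    obtain ⟨x0, y0, bo⟩ := e
    cases bo
    · simp only [src_mk, dsrc_false] at hn0 ⊢
      omega
    · simp only [src_mk, dsrc_true] at hn0 ⊢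
      omega
  have hsum : ∑ x ∈ Finset.Ico (-n - 2) (n + 2), ∑ y ∈ Finset.Ico (-n - 2) (n + 2),
      bd Z x y = 0 := by
    have e1 : ∀ x ∈ Finset.Ico (-n - 2) (n + 2), ∑ y ∈ Finset.Ico (-n - 2) (n + 2), bd Z x y =
        ∑ y ∈ Finset.Ico (-n - 2) (n + 2), (Z (x, y, true) + Z (x, y + 1, true)) +
        ∑ y ∈ Finset.Ico (-n - 2) (n + 2), (Z (x, y, false) + Z (x + 1, y, false)) := by
      intro x _
      rw [← Finset.sum_add_distrib]
      apply Finset.sum_congr rfl
      intro y _
      unfold bd; ring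
    rw [Finset.sum_congr rfl e1, Finset.sum_add_distrib]
    have e2 : ∑ x ∈ Finset.Ico (-n - 2) (n + 2), ∑ y ∈ Finset.Ico (-n - 2) (n + 2),
        (Z (x, y, true) + Z (x, y + 1, true)) = 0 := by
      apply Finset.sum_eq_zero
      intro x _
      rw [telescope' (by omega) (fun y => Z (x, y, true)),
        hZT x (-n - 2) (by omega), hZT x (n + 2) (by omega)]
      ring
    have e3 : ∑ x ∈ Finset.Ico (-n - 2) (n + 2), ∑ y ∈ Finset.Ico (-n - 2) (n + 2),
        (Z (x, y, false) + Z (x + 1, y, false)) = 0 := by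
      rw [Finset.sum_comm]
      apply Finset.sum_eq_zero
      intro y _
      rw [telescope' (by omega) (fun x => Z (x, y, false)),
        hZF (-n - 2) y (by omega), hZF (n + 2) y (by omega)]
      ring
    rw [e2, e3]; ring
  have hsum1 : ∑ x ∈ Finset.Ico (-n - 2) (n + 2), ∑ y ∈ Finset.Ico (-n - 2) (n + 2),
      bd Z x y = 1 := by
    rw [Finset.sum_eq_single (dsrc e).1, Finset.sum_eq_single (dsrc e).2]
    · rw [hbb, b2_of rfl]
    · intro y _ hy
      rw [hbb, b2_not_of]
      intro h
      apply hy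
      rw [h]
    · intro h
      exact absurd (Finset.mem_Ico.mpr hin.2) h
    · intro x _ hx
      apply Finset.sum_eq_zero
      intro y _
      rw [hbb, b2_not_of]
      intro h
      apply hx
      rw [h]
    · intro h
      exact absurd (Finset.mem_Ico.mpr hin.1) h
  rw [hsum] at hsum1
  exact zero_ne_one hsum1

theorem main : Pool.Agent.W810.KP.S_duc := by
  intro F e m hb hne
  have hr := core (W := fun v => Reach (F \ {e}) (src e) v) (e := e) (n := m) hb
    (Reach.refl _ _) hne
  refine hr.mono ?_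
  rintro g ⟨hg1, hg2⟩
  have hgF : g ∉ F := by
    intro hgF
    apply hg1
    have hmem : g ∈ F \ {e} := ⟨hgF, hg2⟩
    constructor
    · intro h
      exact Reach.trans h (Adj.reach ⟨g, hmem, Or.inl ⟨rfl, rfl⟩⟩)
    · intro h
      exact Reach.trans h (Adj.reach ⟨g, hmem, Or.inr ⟨rfl, rfl⟩⟩)
  refine ⟨⟨hgF, hg2⟩, ?_⟩
  have hend : (|(src g).1| ≤ m ∧ |(src g).2| ≤ m) ∨ (|(tgt g).1| ≤ m ∧ |(tgt g).2| ≤ m) := by
    by_cases h2 : Reach (F \ {e}) (src e) (src g)
    · exact Or.inl (hb _ h2)
    · by_cases h3 : Reach (F \ {e}) (src e) (tgt g)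
      · exact Or.inr (hb _ h3)
      · exact absurd ⟨fun h => absurd h h2, fun h => absurd h h3⟩ hg1
  obtain ⟨x0, y0, bo⟩ := g
  cases bo
  · simp only [src_mk, tgt_false, abs_le] at hend
    simp only [boxE, mem_coe, mem_RE_false]
    push_cast
    omega
  · simp only [src_mk, tgt_true, abs_le] at hend
    simp only [boxE, mem_coe, mem_RE_true]
    push_cast
    omega

end Pool.Agent.W472.KPDuc
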